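import Mathlib

/-!
Fronts as words in elementary front tangles, Gauss codes of their smooth resolutions,
and Reidemeister moves on Gauss codes.
-/

namespace Pool.Agent.Work.MP_0e30b3_gt

/-- The three elementary front tangles: left cusp, right cusp, crossing. -/
inductive Kind : Type
  | L
  | R
  | X

open Kind

/-- Number of strands entering the tangle from the left. -/
def Kind.inn : Kind → ℕ
  | L => 0
  | R => 2
  | X => 2

/-- Number of strands leaving the tangle to the right. -/
def Kind.out : Kind → ℕ
  | L => 2
  | R => 0
  | X => 2

/-- A front, read from left to right: `(a, i)` is the tangle `a` placed below the `i` topmost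
strands, all other strands running through horizontally. -/
abbrev Word : Type := List (Kind × ℕ)

/-- `Valid k w`: starting with `k` strands every tangle of `w` fits, and no strand is left. -/
def Valid : ℕ → Word → Prop
  | k, [] => k = 0
  | k, (a, i) :: w => i + a.inn ≤ k ∧ Valid (k - a.inn + a.out) w

/-- Planar isotopy of fronts (sliding two far tangles past each other) and the Legendrian
Reidemeister moves I, II, III. -/
inductive Loc : Word → Word → Prop
  | comm (a b : Kind) (i g : ℕ) :
      Loc [(a, i), (b, i + a.out + g)] [(b, i + a.inn + g), (a, i)]
  | r1a (i : ℕ) : Loc [(L, i + 1), (X, i), (R, i + 1)] []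
  | r1b (i : ℕ) : Loc [(L, i), (X, i + 1), (R, i)] []
  | r2a (i : ℕ) : Loc [(L, i + 1), (X, i), (X, i + 1)] [(L, i)]
  | r2b (i : ℕ) : Loc [(L, i), (X, i + 1), (X, i)] [(L, i + 1)]
  | r2c (i : ℕ) : Loc [(X, i + 1), (X, i), (R, i + 1)] [(R, i)]
  | r2d (i : ℕ) : Loc [(X, i), (X, i + 1), (R, i)] [(R, i + 1)]
  | r3 (i : ℕ) : Loc [(X, i), (X, i + 1), (X, i)] [(X, i + 1), (X, i), (X, i + 1)]

/-- Two closed fronts differ by one local move (in either direction). -/
def LMove (u v : Word) : Prop :=
  Valid 0 u ∧ Valid 0 v ∧
    ∃ p a b s : Word, (Loc a b ∨ Loc b a) ∧ u = p ++ a ++ s ∧ v = p ++ b ++ s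

/-- `w` is a front of the max-tb unknot: it arises from the standard eye (one left cusp, one
right cusp, no crossing) by front isotopies and Legendrian Reidemeister moves. -/
def IsMaxTbUnknotFront (w : Word) : Prop :=
  Relation.ReflTransGen LMove [(L, 0), (R, 0)] w

/-- One step of a walk along the knot. The state `(j, i, d)` is on strand `i` (from the top)
between tangles number `j - 1` and `j`, heading right if `d = true` and left otherwise. -/
def step (w : Word) : ℕ × ℕ × Bool → ℕ × ℕ × Bool
  | (j, i, true) =>
    match w[j]? with
    | some (L, p) => (j + 1, if i < p then i else i + 2, true)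
    | some (R, p) =>
        if i < p then (j + 1, i, true) else if i = p then (j, p + 1, false)
        else if i = p + 1 then (j, p, false) else (j + 1, i - 2, true)
    | some (X, p) => (j + 1, if i = p then p + 1 else if i = p + 1 then p else i, true)
    | none => (j, i, true)
  | (j, i, false) =>
    match w[j - 1]? with
    | some (L, p) =>
        if i < p then (j - 1, i, false) else if i = p then (j, p + 1, true)
        else if i = p + 1 then (j, p, true) else (j - 1, i - 2, false)
    | some (R, p) => (j - 1, if i < p then i else i + 2, false)
    | some (X, p) => (j - 1, if i = p then p + 1 else if i = p + 1 then p else i, false)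
    | none => (j, i, false)

/-- The crossing passed by the next step, if any: its number in the word, and `true` if the walk
is on the over-strand (the one of more negative slope: upper left to lower right). -/
def letter (w : Word) : ℕ × ℕ × Bool → Option (ℕ × Bool)
  | (j, i, true) =>
    match w[j]? with
    | some (X, p) =>
        if i = p then some (j, true) else if i = p + 1 then some (j, false) else none
    | _ => none
  | (j, i, false) =>
    match w[j - 1]? with
    | some (X, p) =>
        if i = p then some (j - 1, false) else if i = p + 1 then some (j - 1, true) else none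
    | _ => none

/-- A Gauss code: the crossings met along the knot, each marked over (`true`) or under. -/
abbrev Code : Type := List (ℕ × Bool)

/-- `g` is the Gauss code of the smooth resolution of the front `w`: the letters read on the
walk from the upper branch of the first left cusp up to the first return. -/
def IsGaussCode (w : Word) (g : Code) : Prop :=
  ∃ n : ℕ, 0 < n ∧ (step w)^[n] (1, 0, true) = (1, 0, true) ∧
    (∀ m : ℕ, 0 < m → m < n → (step w)^[m] (1, 0, true) ≠ (1, 0, true)) ∧
    g = (List.iterate (step w) (1, 0, true) n).filterMap (letter w)

/-- Same code up to renaming the crossings, moving the base point and reversing direction. -/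
def Iso (g h : Code) : Prop :=
  ∃ f : Equiv.Perm ℕ,
    h ~r g.map (Prod.map f id) ∨ h ~r (g.map (Prod.map f id)).reverse

/-- Reidemeister moves on Gauss codes that do not add crossings: I (delete a kink), II (delete
two crossings that are consecutive on an over-strand and on an under-strand), III (reverse the
three sides of a triangle with crossings `a, b, c` one of whose sides is an over-strand).
No condition on signs or planarity is imposed. -/
inductive Red : Code → Code → Prop
  | r1 (a : ℕ) (o : Bool) (u : Code) : Red ((a, o) :: (a, !o) :: u) u
  | r2a (a b : ℕ) (u v : Code) :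
      Red ((a, true) :: (b, true) :: u ++ (a, false) :: (b, false) :: v) (u ++ v)
  | r2b (a b : ℕ) (u v : Code) :
      Red ((a, true) :: (b, true) :: u ++ (b, false) :: (a, false) :: v) (u ++ v)
  | r3 (a b c : ℕ) (x x' y y' : ℕ × Bool) (u v w : Code)
      (h : s(s(x.1, x'.1), s(y.1, y'.1)) = s(s(a, c), s(b, c))) :
      Red ((a, true) :: (b, true) :: u ++ x :: x' :: v ++ y :: y' :: w)
        ((b, true) :: (a, true) :: u ++ x' :: x :: v ++ y' :: y :: w)

/-- One Reidemeister move, or the inverse of one, up to `Iso`. -/
def RMove (g h : Code) : Prop :=
  ∃ g' h' : Code, Iso g g' ∧ Iso h h' ∧ (Red g' h' ∨ Red h' g')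

/-- `D 0, …, D n` is an unknotting Reidemeister sequence starting at `g`. -/
def IsUnknottingSeq (g : Code) (n : ℕ) (D : ℕ → Code) : Prop :=
  D 0 = g ∧ D n = [] ∧ ∀ i < n, RMove (D i) (D (i + 1))

/-- Every unknotting sequence starting at `g` passes through a code with more crossings. -/
def StronglyHard (g : Code) : Prop :=
  ∀ (n : ℕ) (D : ℕ → Code), IsUnknottingSeq g n D → ∃ i ≤ n, g.length < (D i).length

/-- The knot cannot be cut into two arcs, each containing a crossing, that do not cross. -/
def IsPrimeCode (g : Code) : Prop :=
  ¬ ∃ u v : Code, u ++ v ~r g ∧ u ≠ [] ∧ v ≠ [] ∧ ∀ x ∈ u, ∀ y ∈ v, x.1 ≠ y.1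

end Pool.Agent.Work.MP_0e30b3_gt
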