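import Pool.Agent.Work.MP_0e30b3_gt.Defs

namespace Pool.Agent.Work.MP_0e30b3_gt

theorem iso_rot {g h : Code} (H : h ~r g) : Iso g h :=
  ⟨Equiv.refl ℕ, Or.inl (by simpa using H)⟩

theorem iso_rev {g h : Code} (H : h ~r g.reverse) : Iso g h :=
  ⟨Equiv.refl ℕ, Or.inr (by simpa using H)⟩

theorem mk_dn {g h g' h' : Code} (H : Red g' h') (h1 : Iso g g') (h2 : Iso h h') : RMove g h :=
  ⟨g', h', h1, h2, Or.inl H⟩

theorem mk_up {g h g' h' : Code} (H : Red h' g') (h1 : Iso g g') (h2 : Iso h h') : RMove g h :=
  ⟨g', h', h1, h2, Or.inr H⟩

def c0 : Code := [(4, false), (6, true), (7, false), (4, true), (12, true), (14, true), (15, false), (11, true), (10, false), (9, false), (2, false), (19, true), (17, false), (15, true), (14, false), (17, true), (9, true), (7, true), (6, false), (10, true), (11, false), (12, false), (19, false), (2, true)]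

def c1 : Code := [(4, false), (6, true), (101, true), (100, true), (7, false), (4, true), (12, true), (14, true), (15, false), (11, true), (10, false), (101, false), (100, false), (9, false), (2, false), (19, true), (17, false), (15, true), (14, false), (17, true), (9, true), (7, true), (6, false), (10, true), (11, false), (12, false), (19, false), (2, true)]

def c2 : Code := [(4, false), (6, true), (101, true), (7, false), (100, true), (4, true), (12, true), (14, true), (15, false), (11, true), (10, false), (101, false), (9, false), (100, false), (2, false), (19, true), (17, false), (15, true), (14, false), (17, true), (7, true), (9, true), (6, false), (10, true), (11, false), (12, false), (19, false), (2, true)]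

def c3 : Code := [(12, true), (14, true), (15, false), (11, true), (101, false), (10, false), (9, false), (100, false), (2, false), (19, true), (17, false), (15, true), (14, false), (17, true), (7, true), (9, true), (10, true), (6, false), (11, false), (12, false), (19, false), (2, true), (4, false), (101, true), (6, true), (7, false), (100, true), (4, true)]

def c4 : Code := [(12, true), (14, true), (15, false), (11, true), (101, false), (100, false), (2, false), (19, true), (17, false), (15, true), (14, false), (17, true), (7, true), (6, false), (11, false), (12, false), (19, false), (2, true), (4, false), (101, true), (6, true), (7, false), (100, true), (4, true)]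

def c5 : Code := [(12, true), (14, true), (15, false), (11, true), (100, false), (101, false), (2, false), (19, true), (17, false), (15, true), (14, false), (17, true), (7, true), (6, false), (11, false), (12, false), (19, false), (2, true), (101, true), (4, false), (6, true), (7, false), (4, true), (100, true)]

def c6 : Code := [(100, false), (11, true), (15, false), (14, true), (12, true), (100, true), (4, true), (7, false), (6, true), (4, false), (19, false), (12, false), (11, false), (6, false), (7, true), (17, true), (14, false), (15, true), (17, false), (19, true)]

def c7 : Code := [(100, false), (11, true), (15, false), (14, true), (12, true), (100, true), (4, true), (7, false), (104, false), (103, false), (6, true), (4, false), (19, false), (12, false), (11, false), (6, false), (7, true), (104, true), (103, true), (17, true), (14, false), (15, true), (17, false), (19, true)]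

def c8 : Code := [(12, true), (14, true), (15, false), (11, true), (100, false), (19, true), (17, false), (15, true), (14, false), (17, true), (103, true), (6, false), (11, false), (12, false), (19, false), (4, false), (6, true), (103, false), (4, true), (100, true)]

def c9 : Code := [(12, true), (14, true), (15, false), (11, true), (100, false), (19, true), (17, false), (15, true), (107, true), (108, true), (14, false), (17, true), (103, true), (6, false), (11, false), (107, false), (108, false), (12, false), (19, false), (4, false), (6, true), (103, false), (4, true), (100, true)]

def c10 : Code := [(100, false), (11, true), (15, false), (12, true), (14, true), (100, true), (4, true), (103, false), (6, true), (4, false), (19, false), (108, false), (12, false), (107, false), (11, false), (6, false), (103, true), (17, true), (108, true), (14, false), (107, true), (15, true), (17, false), (19, true)]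

def c11 : Code := [(100, false), (15, false), (11, true), (12, true), (14, true), (100, true), (4, true), (103, false), (6, true), (4, false), (19, false), (108, false), (12, false), (11, false), (107, false), (6, false), (103, true), (17, true), (108, true), (14, false), (15, true), (107, true), (17, false), (19, true)]

def c12 : Code := [(100, false), (15, false), (14, true), (100, true), (4, true), (103, false), (6, true), (4, false), (19, false), (108, false), (107, false), (6, false), (103, true), (17, true), (108, true), (14, false), (15, true), (107, true), (17, false), (19, true)]

def c13 : Code := [(100, false), (15, false), (14, true), (100, true), (4, true), (103, false), (6, true), (4, false), (19, false), (107, false), (108, false), (6, false), (103, true), (108, true), (17, true), (14, false), (15, true), (17, false), (107, true), (19, true)]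

def c14 : Code := [(100, false), (15, false), (14, true), (100, true), (4, true), (103, false), (6, true), (4, false), (108, false), (6, false), (103, true), (108, true), (17, true), (14, false), (15, true), (17, false)]

def c15 : Code := [(100, false), (15, false), (14, true), (100, true), (4, true), (6, true), (103, false), (4, false), (6, false), (108, false), (108, true), (103, true), (17, true), (14, false), (15, true), (17, false)]

def c16 : Code := [(14, true), (15, false), (100, false), (17, false), (15, true), (14, false), (17, true), (103, true), (6, false), (4, false), (103, false), (6, true), (4, true), (100, true)]

def c17 : Code := [(14, true), (15, false), (100, false), (17, false), (15, true), (111, false), (110, false), (14, false), (17, true), (103, true), (6, false), (4, false), (103, false), (6, true), (4, true), (100, true), (111, true), (110, true)]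

def c18 : Code := [(17, true), (103, true), (6, false), (4, false), (103, false), (6, true), (4, true), (100, true), (111, true), (15, false), (100, false), (17, false), (15, true), (111, false)]

def c19 : Code := [(17, true), (103, true), (6, false), (4, false), (103, false), (6, true), (4, true), (111, true), (100, true), (100, false), (15, false), (17, false), (111, false), (15, true)]

def c20 : Code := [(17, true), (103, true), (6, false), (4, false), (103, false), (6, true), (4, true), (111, true), (15, false), (17, false), (111, false), (15, true)]

def c21 : Code := [(17, true), (103, true), (6, false), (112, false), (113, false), (4, false), (103, false), (6, true), (4, true), (111, true), (15, false), (113, true), (112, true), (17, false), (111, false), (15, true)]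

def c22 : Code := [(17, true), (103, true), (6, false), (112, false), (113, false), (116, false), (115, false), (4, false), (103, false), (6, true), (116, true), (115, true), (4, true), (111, true), (15, false), (113, true), (112, true), (17, false), (111, false), (15, true)]

def c23 : Code := [(15, false), (111, true), (116, true), (6, true), (103, false), (116, false), (113, false), (112, false), (6, false), (103, true), (17, true), (15, true), (111, false), (17, false), (112, true), (113, true)]

def c24 : Code := [(15, false), (111, true), (116, true), (6, true), (103, false), (116, false), (6, false), (103, true), (17, true), (15, true), (111, false), (17, false)]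

def c25 : Code := [(15, false), (111, true), (103, false), (103, true), (17, true), (15, true), (111, false), (17, false)]

def c26 : Code := [(15, false), (111, true), (17, true), (15, true), (111, false), (17, false)]

def c27 : Code := [(15, false), (15, true)]

def c28 : Code := []

theorem rm0 : RMove c0 c1 :=
  mk_up (Red.r2a 101 100 [(7, false), (4, true), (12, true), (14, true), (15, false), (11, true), (10, false)] [(9, false), (2, false), (19, true), (17, false), (15, true), (14, false), (17, true), (9, true), (7, true), (6, false), (10, true), (11, false), (12, false), (19, false), (2, true), (4, false), (6, true)])
    (iso_rot (by decide)) (iso_rot (by decide))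

theorem rm1 : RMove c1 c2 :=
  mk_dn (Red.r3 9 7 100 (100, true) (7, false) (100, false) (9, false) [(6, false), (10, true), (11, false), (12, false), (19, false), (2, true), (4, false), (6, true), (101, true)] [(4, true), (12, true), (14, true), (15, false), (11, true), (10, false), (101, false)] [(2, false), (19, true), (17, false), (15, true), (14, false), (17, true)] (by decide))
    (iso_rot (by decide)) (iso_rot (by decide))

theorem rm2 : RMove c2 c3 :=
  mk_dn (Red.r3 6 101 10 (10, false) (101, false) (6, false) (10, true) [(7, false), (100, true), (4, true), (12, true), (14, true), (15, false), (11, true)] [(9, false), (100, false), (2, false), (19, true), (17, false), (15, true), (14, false), (17, true), (7, true), (9, true)] [(11, false), (12, false), (19, false), (2, true), (4, false)] (by decide))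
    (iso_rot (by decide)) (iso_rot (by decide))

theorem rm3 : RMove c3 c4 :=
  mk_dn (Red.r2b 9 10 [(6, false), (11, false), (12, false), (19, false), (2, true), (4, false), (101, true), (6, true), (7, false), (100, true), (4, true), (12, true), (14, true), (15, false), (11, true), (101, false)] [(100, false), (2, false), (19, true), (17, false), (15, true), (14, false), (17, true), (7, true)])
    (iso_rot (by decide)) (iso_rot (by decide))

theorem rm4 : RMove c4 c5 :=
  mk_dn (Red.r3 100 4 101 (101, false) (100, false) (4, false) (101, true) [(12, true), (14, true), (15, false), (11, true)] [(2, false), (19, true), (17, false), (15, true), (14, false), (17, true), (7, true), (6, false), (11, false), (12, false), (19, false), (2, true)] [(6, true), (7, false)] (by decide))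
    (iso_rot (by decide)) (iso_rot (by decide))

theorem rm5 : RMove c5 c6 :=
  mk_dn (Red.r2b 2 101 [(4, false), (6, true), (7, false), (4, true), (100, true), (12, true), (14, true), (15, false), (11, true), (100, false)] [(19, true), (17, false), (15, true), (14, false), (17, true), (7, true), (6, false), (11, false), (12, false), (19, false)])
    (iso_rot (by decide)) (iso_rev (by decide))

theorem rm6 : RMove c6 c7 :=
  mk_up (Red.r2a 104 103 [(17, true), (14, false), (15, true), (17, false), (19, true), (100, false), (11, true), (15, false), (14, true), (12, true), (100, true), (4, true), (7, false)] [(6, true), (4, false), (19, false), (12, false), (11, false), (6, false), (7, true)])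
    (iso_rot (by decide)) (iso_rot (by decide))

theorem rm7 : RMove c7 c8 :=
  mk_dn (Red.r2a 7 104 [(103, true), (17, true), (14, false), (15, true), (17, false), (19, true), (100, false), (11, true), (15, false), (14, true), (12, true), (100, true), (4, true)] [(103, false), (6, true), (4, false), (19, false), (12, false), (11, false), (6, false)])
    (iso_rot (by decide)) (iso_rev (by decide))

theorem rm8 : RMove c8 c9 :=
  mk_up (Red.r2a 107 108 [(14, false), (17, true), (103, true), (6, false), (11, false)] [(12, false), (19, false), (4, false), (6, true), (103, false), (4, true), (100, true), (12, true), (14, true), (15, false), (11, true), (100, false), (19, true), (17, false), (15, true)])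
    (iso_rot (by decide)) (iso_rot (by decide))

theorem rm9 : RMove c9 c10 :=
  mk_dn (Red.r3 12 14 108 (108, true) (14, false) (108, false) (12, false) [(15, false), (11, true), (100, false), (19, true), (17, false), (15, true), (107, true)] [(17, true), (103, true), (6, false), (11, false), (107, false)] [(19, false), (4, false), (6, true), (103, false), (4, true), (100, true)] (by decide))
    (iso_rot (by decide)) (iso_rev (by decide))

theorem rm10 : RMove c10 c11 :=
  mk_dn (Red.r3 107 15 11 (11, true) (15, false) (107, false) (11, false) [(17, false), (19, true), (100, false)] [(12, true), (14, true), (100, true), (4, true), (103, false), (6, true), (4, false), (19, false), (108, false), (12, false)] [(6, false), (103, true), (17, true), (108, true), (14, false)] (by decide))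
    (iso_rot (by decide)) (iso_rot (by decide))

theorem rm11 : RMove c11 c12 :=
  mk_dn (Red.r2b 11 12 [(14, true), (100, true), (4, true), (103, false), (6, true), (4, false), (19, false), (108, false)] [(107, false), (6, false), (103, true), (17, true), (108, true), (14, false), (15, true), (107, true), (17, false), (19, true), (100, false), (15, false)])
    (iso_rot (by decide)) (iso_rot (by decide))

theorem rm12 : RMove c12 c13 :=
  mk_dn (Red.r3 17 108 107 (107, true) (17, false) (108, false) (107, false) [(14, false), (15, true)] [(19, true), (100, false), (15, false), (14, true), (100, true), (4, true), (103, false), (6, true), (4, false), (19, false)] [(6, false), (103, true)] (by decide))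
    (iso_rot (by decide)) (iso_rot (by decide))

theorem rm13 : RMove c13 c14 :=
  mk_dn (Red.r2b 107 19 [(100, false), (15, false), (14, true), (100, true), (4, true), (103, false), (6, true), (4, false)] [(108, false), (6, false), (103, true), (108, true), (17, true), (14, false), (15, true), (17, false)])
    (iso_rot (by decide)) (iso_rot (by decide))

theorem rm14 : RMove c14 c15 :=
  mk_dn (Red.r3 103 108 6 (103, false) (6, true) (108, false) (6, false) [(17, true), (14, false), (15, true), (17, false), (100, false), (15, false), (14, true), (100, true), (4, true)] [(4, false)] [] (by decide))
    (iso_rot (by decide)) (iso_rot (by decide))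

theorem rm15 : RMove c15 c16 :=
  mk_dn (Red.r1 108 false [(103, true), (17, true), (14, false), (15, true), (17, false), (100, false), (15, false), (14, true), (100, true), (4, true), (6, true), (103, false), (4, false), (6, false)])
    (iso_rot (by decide)) (iso_rev (by decide))

theorem rm16 : RMove c16 c17 :=
  mk_up (Red.r2a 111 110 [(14, true), (15, false), (100, false), (17, false), (15, true)] [(14, false), (17, true), (103, true), (6, false), (4, false), (103, false), (6, true), (4, true), (100, true)])
    (iso_rot (by decide)) (iso_rot (by decide))

theorem rm17 : RMove c17 c18 :=
  mk_dn (Red.r2a 110 14 [(15, false), (100, false), (17, false), (15, true), (111, false)] [(17, true), (103, true), (6, false), (4, false), (103, false), (6, true), (4, true), (100, true), (111, true)])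
    (iso_rot (by decide)) (iso_rot (by decide))

theorem rm18 : RMove c18 c19 :=
  mk_dn (Red.r3 100 111 15 (15, false) (100, false) (15, true) (111, false) [] [(17, false)] [(17, true), (103, true), (6, false), (4, false), (103, false), (6, true), (4, true)] (by decide))
    (iso_rot (by decide)) (iso_rot (by decide))

theorem rm19 : RMove c19 c20 :=
  mk_dn (Red.r1 100 true [(15, false), (17, false), (111, false), (15, true), (17, true), (103, true), (6, false), (4, false), (103, false), (6, true), (4, true), (111, true)])
    (iso_rot (by decide)) (iso_rot (by decide))

theorem rm20 : RMove c20 c21 :=
  mk_up (Red.r2b 113 112 [(17, false), (111, false), (15, true), (17, true), (103, true), (6, false)] [(4, false), (103, false), (6, true), (4, true), (111, true), (15, false)])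
    (iso_rot (by decide)) (iso_rot (by decide))

theorem rm21 : RMove c21 c22 :=
  mk_up (Red.r2a 116 115 [(4, true), (111, true), (15, false), (113, true), (112, true), (17, false), (111, false), (15, true), (17, true), (103, true), (6, false), (112, false), (113, false)] [(4, false), (103, false), (6, true)])
    (iso_rot (by decide)) (iso_rot (by decide))

theorem rm22 : RMove c22 c23 :=
  mk_dn (Red.r2a 115 4 [(111, true), (15, false), (113, true), (112, true), (17, false), (111, false), (15, true), (17, true), (103, true), (6, false), (112, false), (113, false), (116, false)] [(103, false), (6, true), (116, true)])
    (iso_rot (by decide)) (iso_rev (by decide))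

theorem rm23 : RMove c23 c24 :=
  mk_dn (Red.r2b 112 113 [(15, false), (111, true), (116, true), (6, true), (103, false), (116, false)] [(6, false), (103, true), (17, true), (15, true), (111, false), (17, false)])
    (iso_rot (by decide)) (iso_rot (by decide))

theorem rm24 : RMove c24 c25 :=
  mk_dn (Red.r2a 116 6 [(103, false)] [(103, true), (17, true), (15, true), (111, false), (17, false), (15, false), (111, true)])
    (iso_rot (by decide)) (iso_rot (by decide))

theorem rm25 : RMove c25 c26 :=
  mk_dn (Red.r1 103 false [(17, true), (15, true), (111, false), (17, false), (15, false), (111, true)])
    (iso_rot (by decide)) (iso_rot (by decide))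

theorem rm26 : RMove c26 c27 :=
  mk_dn (Red.r2a 111 17 [(15, true)] [(15, false)])
    (iso_rot (by decide)) (iso_rev (by decide))

theorem rm27 : RMove c27 c28 :=
  mk_dn (Red.r1 15 false [])
    (iso_rot (by decide)) (iso_rot (by decide))

def seqD : ℕ → Code
  | 0 => c0
  | 1 => c1
  | 2 => c2
  | 3 => c3
  | 4 => c4
  | 5 => c5
  | 6 => c6
  | 7 => c7
  | 8 => c8
  | 9 => c9
  | 10 => c10
  | 11 => c11
  | 12 => c12
  | 13 => c13
  | 14 => c14
  | 15 => c15
  | 16 => c16
  | 17 => c17
  | 18 => c18
  | 19 => c19
  | 20 => c20
  | 21 => c21
  | 22 => c22
  | 23 => c23
  | 24 => c24
  | 25 => c25
  | 26 => c26
  | 27 => c27
  | _ => []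

theorem seq_ok : IsUnknottingSeq c0 28 seqD := by
  refine ⟨rfl, rfl, ?_⟩
  intro i hi
  interval_cases i
  · exact rm0
  · exact rm1
  · exact rm2
  · exact rm3
  · exact rm4
  · exact rm5
  · exact rm6
  · exact rm7
  · exact rm8
  · exact rm9
  · exact rm10
  · exact rm11
  · exact rm12
  · exact rm13
  · exact rm14
  · exact rm15
  · exact rm16
  · exact rm17
  · exact rm18
  · exact rm19
  · exact rm20
  · exact rm21
  · exact rm22
  · exact rm23
  · exact rm24
  · exact rm25
  · exact rm26
  · exact rm27

end Pool.Agent.Work.MP_0e30b3_gt
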