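import Pool.Agent.Work.MP_0e30b3_gt.Leg
import Pool.Agent.Work.MP_0e30b3_gt.Seq

namespace Pool.Agent.Work.MP_0e30b3_gt

/-- cyclic adjacency of two letters, in either order -/
def CA (g : Code) (x y : ℕ × Bool) : Prop :=
  ∃ u : Code, (x :: y :: u) ~r g ∨ (y :: x :: u) ~r g

theorem CA.symm {g : Code} {x y} (h : CA g x y) : CA g y x := by
  obtain ⟨u, h⟩ := h
  exact ⟨u, h.symm⟩

theorem CA.of_rot {g g' : Code} {x y} (H : g' ~r g) (h : CA g' x y) : CA g x y := by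
  obtain ⟨u, h | h⟩ := h
  · exact ⟨u, Or.inl (h.trans H)⟩
  · exact ⟨u, Or.inr (h.trans H)⟩

theorem ca_mid (p s : Code) (x y : ℕ × Bool) : CA (p ++ x :: y :: s) x y :=
  ⟨s ++ p, Or.inl (by simpa using (List.isRotated_append (l := x :: y :: s) (l' := p)))⟩

theorem rev_aux {g u : Code} {x y} (h : (x :: y :: u) ~r g.reverse) :
    (y :: x :: u.reverse) ~r g := by
  have h1 := h.reverse
  rw [List.reverse_reverse] at h1
  refine List.IsRotated.trans ?_ h1
  simpa using (List.isRotated_append (l := [y, x]) (l' := u.reverse))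

theorem CA.of_rev {g : Code} {x y} (h : CA g.reverse x y) : CA g x y := by
  obtain ⟨u, h | h⟩ := h
  · exact ⟨_, Or.inr (rev_aux h)⟩
  · exact ⟨_, Or.inl (rev_aux h)⟩

theorem map_aux {g u : Code} (Φ : ℕ × Bool → ℕ × Bool) {x y}
    (h : (x :: y :: u) ~r g.map Φ) :
    ∃ x0 y0 u0, Φ x0 = x ∧ Φ y0 = y ∧ (x0 :: y0 :: u0) ~r g := by
  obtain ⟨n, hn⟩ := h.symm
  rw [← List.map_rotate] at hn
  obtain ⟨x0, t, ht, hx, h2⟩ := List.map_eq_cons_iff.1 hn
  obtain ⟨y0, u0, ht2, hy, -⟩ := List.map_eq_cons_iff.1 h2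
  refine ⟨x0, y0, u0, hx, hy, List.IsRotated.symm ⟨n, ?_⟩⟩
  rw [ht, ht2]

theorem CA.of_map {g : Code} (Φ : ℕ × Bool → ℕ × Bool) {x y} (h : CA (g.map Φ) x y) :
    ∃ x0 y0, Φ x0 = x ∧ Φ y0 = y ∧ CA g x0 y0 := by
  obtain ⟨u, h | h⟩ := h
  · obtain ⟨x0, y0, u0, h1, h2, h3⟩ := map_aux Φ h
    exact ⟨x0, y0, h1, h2, u0, Or.inl h3⟩
  · obtain ⟨x0, y0, u0, h1, h2, h3⟩ := map_aux Φ h
    exact ⟨y0, x0, h2, h1, u0, Or.inr h3⟩

/-- the adjacent pairs of `c0` -/
def adj : List ((ℕ × Bool) × (ℕ × Bool)) :=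
  c0.zip (c0.rotate 1) ++ (c0.rotate 1).zip c0

theorem head_adj : ∀ l ∈ c0.cyclicPermutations,
    (l.getD 0 (0, true), l.getD 1 (0, true)) ∈ adj ∧
      (l.getD 1 (0, true), l.getD 0 (0, true)) ∈ adj := by decide +kernel

theorem CA.mem {x y} (h : CA c0 x y) : (x, y) ∈ adj := by
  obtain ⟨u, h | h⟩ := h
  · simpa using (head_adj _ (List.mem_cyclicPermutations_iff.2 h)).1
  · simpa using (head_adj _ (List.mem_cyclicPermutations_iff.2 h)).2

theorem iso_len {g h : Code} (H : Iso g h) : h.length = g.length := by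
  obtain ⟨f, H | H⟩ := H <;> simpa using H.perm.length_eq

theorem iso_c0 {g : Code} (H : Iso c0 g) :
    g.Nodup ∧ ∃ f : Equiv.Perm ℕ, ∀ x y, CA g x y →
      ∃ x0 y0, Prod.map f id x0 = x ∧ Prod.map f id y0 = y ∧ (x0, y0) ∈ adj := by
  obtain ⟨f, H⟩ := H
  have hn : (c0.map (Prod.map f id)).Nodup :=
    List.Nodup.map (f.injective.prodMap Function.injective_id) (by decide)
  rcases H with H | H
  · refine ⟨H.perm.nodup_iff.2 hn, f, fun x y h => ?_⟩
    obtain ⟨x0, y0, h1, h2, h3⟩ := (h.of_rot H).of_map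
    exact ⟨x0, y0, h1, h2, h3.mem⟩
  · refine ⟨H.perm.nodup_iff.2 (List.nodup_reverse.2 hn), f, fun x y h => ?_⟩
    obtain ⟨x0, y0, h1, h2, h3⟩ := (h.of_rot H).of_rev.of_map
    exact ⟨x0, y0, h1, h2, h3.mem⟩

theorem no1 : ∀ p ∈ adj, p.1.1 ≠ p.2.1 := by decide +kernel

theorem no2 : ∀ p ∈ adj, p.1.2 = true → p.2.2 = true →
    ((p.1.1, false), (p.2.1, false)) ∉ adj := by decide +kernel

theorem no3 : ∀ p ∈ adj, p.1.2 = true → p.2.2 = true → ∀ q ∈ adj, q.1 = (p.1.1, false) →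
    ∀ r ∈ adj, r.1 = (p.2.1, false) → q.2.1 = r.2.1 → q.2 = r.2 := by decide +kernel

theorem not_r1 {a o u} (H : Iso c0 ((a, o) :: (a, !o) :: u)) : False := by
  obtain ⟨-, f, hf⟩ := iso_c0 H
  obtain ⟨x0, y0, h1, h2, h3⟩ := hf _ _ (ca_mid [] u _ _)
  apply no1 _ h3
  apply f.injective
  exact (congrArg Prod.fst h1).trans (congrArg Prod.fst h2).symm

theorem not_r2 {g : Code} {a b} (H : Iso c0 g) (h1 : CA g (a, true) (b, true))
    (h2 : CA g (a, false) (b, false)) : False := by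
  obtain ⟨-, f, hf⟩ := iso_c0 H
  obtain ⟨⟨a1, o1⟩, ⟨b1, o2⟩, e1, e2, m1⟩ := hf _ _ h1
  obtain ⟨⟨a2, o3⟩, ⟨b2, o4⟩, e3, e4, m2⟩ := hf _ _ h2
  simp only [Prod.map, id, Prod.mk.injEq] at e1 e2 e3 e4
  obtain rfl : a1 = a2 := f.injective (e1.1.trans e3.1.symm)
  obtain rfl : b1 = b2 := f.injective (e2.1.trans e4.1.symm)
  obtain ⟨-, rfl⟩ := e1
  obtain ⟨-, rfl⟩ := e2
  obtain ⟨-, rfl⟩ := e3
  obtain ⟨-, rfl⟩ := e4
  exact no2 _ m1 rfl rfl m2

theorem not_tri {g : Code} {a b : ℕ} {x x' y y' : ℕ × Bool} (H : Iso c0 g)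
    (h1 : CA g (a, true) (b, true)) (h2 : CA g x x') (h3 : CA g y y')
    (ex : x.1 = a) (ey : y.1 = b) (ec : x'.1 = y'.1)
    (nx : x ≠ (a, true)) (ny : y ≠ (b, true)) (nc : x' ≠ y') : False := by
  obtain ⟨-, f, hf⟩ := iso_c0 H
  obtain ⟨⟨a1, o1⟩, ⟨b1, o2⟩, e1, e2, m1⟩ := hf _ _ h1
  obtain ⟨⟨a2, o3⟩, z, rfl, rfl, m2⟩ := hf _ _ h2
  obtain ⟨⟨b2, o4⟩, t, rfl, rfl, m3⟩ := hf _ _ h3
  simp only [Prod.map, id, Prod.mk.injEq] at e1 e2 ex ey ec nx ny
  obtain rfl : a1 = a2 := f.injective (e1.1.trans ex.symm)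
  obtain rfl : b1 = b2 := f.injective (e2.1.trans ey.symm)
  obtain ⟨-, rfl⟩ := e1
  obtain ⟨-, rfl⟩ := e2
  have ho3 : o3 = false := by
    cases o3
    · rfl
    · exact absurd (by rw [ex]) nx
  have ho4 : o4 = false := by
    cases o4
    · rfl
    · exact absurd (by rw [ey]) ny
  subst ho3 ho4
  have := no3 _ m1 rfl rfl _ m2 rfl _ m3 rfl (f.injective ec)
  exact nc (by simp only at this; rw [this])

theorem not_r3 {a b c : ℕ} {x x' y y' : ℕ × Bool} {u v w : Code}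
    (h : s(s(x.1, x'.1), s(y.1, y'.1)) = s(s(a, c), s(b, c)))
    (H : Iso c0 ((a, true) :: (b, true) :: u ++ x :: x' :: v ++ y :: y' :: w)) : False := by
  have hn := (iso_c0 H).1
  have h1 : CA ((a, true) :: (b, true) :: u ++ x :: x' :: v ++ y :: y' :: w) (a, true) (b, true) := by
    simpa using ca_mid [] (u ++ x :: x' :: v ++ y :: y' :: w) (a, true) (b, true)
  have h2 : CA ((a, true) :: (b, true) :: u ++ x :: x' :: v ++ y :: y' :: w) x x' := by
    simpa using ca_mid ((a, true) :: (b, true) :: u) (v ++ y :: y' :: w) x x'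
  have h3 : CA ((a, true) :: (b, true) :: u ++ x :: x' :: v ++ y :: y' :: w) y y' :=
    ca_mid _ w y y'
  have hs : [(a, true), (b, true), x, x', y, y'].Nodup := by
    refine hn.sublist ?_
    simp only [List.cons_append, List.append_assoc]
    refine (List.Sublist.cons_cons _ (List.Sublist.cons_cons _ ?_))
    refine List.sublist_append_of_sublist_right ?_
    refine (List.Sublist.cons_cons _ (List.Sublist.cons_cons _ ?_))
    refine List.sublist_append_of_sublist_right ?_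
    exact List.Sublist.cons_cons _ (List.Sublist.cons_cons _ (List.nil_sublist _))
  simp only [List.nodup_cons, List.mem_cons, List.not_mem_nil, or_false, not_or] at hs
  obtain ⟨⟨-, a1, a2, a3, a4⟩, ⟨b1, b2, b3, b4⟩, ⟨-, c1, c2⟩, ⟨d1, d2⟩, -⟩ := hs
  simp only [Sym2.eq_iff] at h
  rcases h with ⟨hx | hx, hy | hy⟩ | ⟨hx | hx, hy | hy⟩
  · exact not_tri H h1 h2 h3 hx.1 hy.1 (hx.2.trans hy.2.symm) (Ne.symm a1) (Ne.symm b3) d2
  · exact not_tri H h1 h2 h3.symm hx.1 hy.2 (hx.2.trans hy.1.symm) (Ne.symm a1) (Ne.symm b4) d1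
  · exact not_tri H h1 h2.symm h3 hx.2 hy.1 (hx.1.trans hy.2.symm) (Ne.symm a2) (Ne.symm b3) c2
  · exact not_tri H h1 h2.symm h3.symm hx.2 hy.2 (hx.1.trans hy.1.symm) (Ne.symm a2)
      (Ne.symm b4) c1
  · exact not_tri H h1 h3 h2 hy.1 hx.1 (hy.2.trans hx.2.symm) (Ne.symm a3) (Ne.symm b1)
      (Ne.symm d2)
  · exact not_tri H h1 h3.symm h2 hy.2 hx.1 (hy.1.trans hx.2.symm) (Ne.symm a4) (Ne.symm b1)
      (Ne.symm d1)
  · exact not_tri H h1 h3 h2.symm hy.1 hx.2 (hy.2.trans hx.1.symm) (Ne.symm a3) (Ne.symm b2)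
      (Ne.symm c2)
  · exact not_tri H h1 h3.symm h2.symm hy.2 hx.2 (hy.1.trans hx.1.symm) (Ne.symm a4)
      (Ne.symm b2) (Ne.symm c1)

theorem first_move {h : Code} (H : RMove c0 h) : c0.length < h.length := by
  obtain ⟨g', h', H1, H2, H3 | H3⟩ := H
  · exfalso
    cases H3 with
    | r1 a o u => exact not_r1 H1
    | r2a a b u v =>
        exact not_r2 H1 (by simpa using ca_mid [] (u ++ (a, false) :: (b, false) :: v) _ _)
          (ca_mid _ v _ _)
    | r2b a b u v =>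
        exact not_r2 H1 (by simpa using ca_mid [] (u ++ (b, false) :: (a, false) :: v) _ _)
          (ca_mid _ v _ _).symm
    | r3 a b c x x' y y' u v w h => exact not_r3 h H1
  · rw [← iso_len H1, ← iso_len H2]
    cases H3 with
    | r1 a o u => simp
    | r2a a b u v => simp; omega
    | r2b a b u v => simp; omega
    | r3 a b c x x' y y' u v w h =>
        exfalso
        refine not_r3 (c := c) ?_ H1
        rw [Sym2.eq_swap (a := x'.1), Sym2.eq_swap (a := y'.1), h, Sym2.eq_swap]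

theorem c0_hard : StronglyHard c0 := by
  rintro n D ⟨h0, hn, hs⟩
  rcases Nat.eq_zero_or_pos n with rfl | hpos
  · rw [h0] at hn
    exact absurd hn (by decide)
  · have := hs 0 hpos
    rw [h0] at this
    exact ⟨1, hpos, first_move this⟩

theorem prime_aux : ∀ l ∈ c0.cyclicPermutations, ∀ k ∈ List.range 24, k ≠ 0 →
    ∃ x ∈ l.take k, ∃ y ∈ l.drop k, x.1 = y.1 := by decide +kernel

theorem c0_prime : IsPrimeCode c0 := by
  rintro ⟨u, v, h, hu, hv, hd⟩
  have hl : u.length + v.length = 24 := by simpa [c0] using h.perm.length_eq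
  have hu' : u.length ≠ 0 := by simpa using hu
  have hv' : v.length ≠ 0 := by simpa using hv
  obtain ⟨x, hx, y, hy, e⟩ := prime_aux _ (List.mem_cyclicPermutations_iff.2 h) u.length
    (List.mem_range.2 (by omega)) hu'
  simp only [List.take_left', List.drop_left'] at hx hy
  exact hd x hx y hy e

theorem gauss_aux : ∀ m ∈ List.range 122, 0 < m → (step F)^[m] (1, 0, true) ≠ (1, 0, true) := by
  decide +kernel

theorem F_gauss : IsGaussCode F c0 :=
  ⟨122, by norm_num, by decide +kernel, fun m h1 h2 => gauss_aux m (List.mem_range.2 h2) h1,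
    by decide +kernel⟩

end Pool.Agent.Work.MP_0e30b3_gt
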