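import Pool.Agent.Work.MP_0e30b3_gt.Defs

namespace Pool.Agent.Work.MP_0e30b3_gt
open Kind

def validB : ℕ → Word → Bool
  | k, [] => k == 0
  | k, (a, i) :: w => decide (i + a.inn ≤ k) && validB (k - a.inn + a.out) w

theorem valid_of : ∀ (k : ℕ) (w : Word), validB k w = true → Valid k w
  | k, [], h => by simpa [validB, Valid] using h
  | k, (a, i) :: w, h => by
      simp only [validB, Bool.and_eq_true, decide_eq_true_eq] at h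
      exact ⟨h.1, valid_of _ _ h.2⟩

theorem mk_fwd (p a b s : Word) (h : Loc a b) (h1 : validB 0 (p ++ a ++ s) = true)
    (h2 : validB 0 (p ++ b ++ s) = true) : LMove (p ++ a ++ s) (p ++ b ++ s) :=
  ⟨valid_of _ _ h1, valid_of _ _ h2, p, a, b, s, Or.inl h, rfl, rfl⟩

theorem mk_bwd (p a b s : Word) (h : Loc b a) (h1 : validB 0 (p ++ a ++ s) = true)
    (h2 : validB 0 (p ++ b ++ s) = true) : LMove (p ++ a ++ s) (p ++ b ++ s) :=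
  ⟨valid_of _ _ h1, valid_of _ _ h2, p, a, b, s, Or.inr h, rfl, rfl⟩

theorem m0 : LMove [(L, 0), (R, 0)]
    [(L, 0), (L, 0), (X, 1), (R, 0), (R, 0)] :=
  mk_bwd [(L, 0)] _ _ [(R, 0)] (Loc.r1b 0) (by decide) (by decide)

theorem m1 : LMove [(L, 0), (L, 0), (X, 1), (R, 0), (R, 0)]
    [(L, 0), (L, 0), (X, 1), (X, 1), (X, 0), (R, 1), (R, 0)] :=
  mk_bwd [(L, 0), (L, 0), (X, 1)] _ _ [(R, 0)] (Loc.r2c 0) (by decide) (by decide)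

theorem m2 : LMove [(L, 0), (L, 0), (X, 1), (X, 1), (X, 0), (R, 1), (R, 0)]
    [(L, 0), (L, 0), (X, 1), (X, 1), (X, 0), (L, 2), (X, 1), (R, 2), (R, 1), (R, 0)] :=
  mk_bwd [(L, 0), (L, 0), (X, 1), (X, 1), (X, 0)] _ _ [(R, 1), (R, 0)] (Loc.r1a 1) (by decide) (by decide)

theorem m3 : LMove [(L, 0), (L, 0), (X, 1), (X, 1), (X, 0), (L, 2), (X, 1), (R, 2), (R, 1), (R, 0)]
    [(L, 0), (L, 0), (X, 1), (X, 1), (X, 0), (L, 2), (X, 1), (X, 1), (X, 2), (R, 1), (R, 1), (R, 0)] :=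
  mk_bwd [(L, 0), (L, 0), (X, 1), (X, 1), (X, 0), (L, 2), (X, 1)] _ _ [(R, 1), (R, 0)] (Loc.r2d 1) (by decide) (by decide)

theorem m4 : LMove [(L, 0), (L, 0), (X, 1), (X, 1), (X, 0), (L, 2), (X, 1), (X, 1), (X, 2), (R, 1), (R, 1), (R, 0)]
    [(L, 0), (L, 0), (X, 1), (X, 1), (X, 0), (L, 2), (X, 1), (X, 1), (X, 2), (R, 3), (R, 1), (R, 0)] :=
  mk_fwd [(L, 0), (L, 0), (X, 1), (X, 1), (X, 0), (L, 2), (X, 1), (X, 1), (X, 2)] _ _ [(R, 0)] (Loc.comm R R 1 0) (by decide) (by decide)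

theorem m5 : LMove [(L, 0), (L, 0), (X, 1), (X, 1), (X, 0), (L, 2), (X, 1), (X, 1), (X, 2), (R, 3), (R, 1), (R, 0)]
    [(L, 0), (L, 0), (X, 1), (X, 1), (X, 0), (L, 2), (X, 1), (X, 1), (X, 2), (R, 3), (X, 0), (X, 1), (R, 0), (R, 0)] :=
  mk_bwd [(L, 0), (L, 0), (X, 1), (X, 1), (X, 0), (L, 2), (X, 1), (X, 1), (X, 2), (R, 3)] _ _ [(R, 0)] (Loc.r2d 0) (by decide) (by decide)

theorem m6 : LMove [(L, 0), (L, 0), (X, 1), (X, 1), (X, 0), (L, 2), (X, 1), (X, 1), (X, 2), (R, 3), (X, 0), (X, 1), (R, 0), (R, 0)]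
    [(L, 0), (L, 0), (X, 1), (X, 1), (X, 0), (L, 3), (X, 2), (X, 3), (X, 1), (X, 1), (X, 2), (R, 3), (X, 0), (X, 1), (R, 0), (R, 0)] :=
  mk_bwd [(L, 0), (L, 0), (X, 1), (X, 1), (X, 0)] _ _ [(X, 1), (X, 1), (X, 2), (R, 3), (X, 0), (X, 1), (R, 0), (R, 0)] (Loc.r2a 2) (by decide) (by decide)

theorem m7 : LMove [(L, 0), (L, 0), (X, 1), (X, 1), (X, 0), (L, 3), (X, 2), (X, 3), (X, 1), (X, 1), (X, 2), (R, 3), (X, 0), (X, 1), (R, 0), (R, 0)]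
    [(L, 0), (L, 2), (X, 1), (X, 1), (X, 0), (L, 3), (X, 2), (X, 3), (X, 1), (X, 1), (X, 2), (R, 3), (X, 0), (X, 1), (R, 0), (R, 0)] :=
  mk_bwd [] _ _ [(X, 1), (X, 1), (X, 0), (L, 3), (X, 2), (X, 3), (X, 1), (X, 1), (X, 2), (R, 3), (X, 0), (X, 1), (R, 0), (R, 0)] (Loc.comm L L 0 0) (by decide) (by decide)

theorem m8 : LMove [(L, 0), (L, 2), (X, 1), (X, 1), (X, 0), (L, 3), (X, 2), (X, 3), (X, 1), (X, 1), (X, 2), (R, 3), (X, 0), (X, 1), (R, 0), (R, 0)]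
    [(L, 0), (L, 2), (X, 1), (X, 1), (L, 3), (X, 0), (X, 2), (X, 3), (X, 1), (X, 1), (X, 2), (R, 3), (X, 0), (X, 1), (R, 0), (R, 0)] :=
  mk_fwd [(L, 0), (L, 2), (X, 1), (X, 1)] _ _ [(X, 2), (X, 3), (X, 1), (X, 1), (X, 2), (R, 3), (X, 0), (X, 1), (R, 0), (R, 0)] (Loc.comm X L 0 1) (by decide) (by decide)

theorem m9 : LMove [(L, 0), (L, 2), (X, 1), (X, 1), (L, 3), (X, 0), (X, 2), (X, 3), (X, 1), (X, 1), (X, 2), (R, 3), (X, 0), (X, 1), (R, 0), (R, 0)]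
    [(L, 0), (L, 2), (X, 1), (L, 3), (X, 1), (X, 0), (X, 2), (X, 3), (X, 1), (X, 1), (X, 2), (R, 3), (X, 0), (X, 1), (R, 0), (R, 0)] :=
  mk_fwd [(L, 0), (L, 2), (X, 1)] _ _ [(X, 0), (X, 2), (X, 3), (X, 1), (X, 1), (X, 2), (R, 3), (X, 0), (X, 1), (R, 0), (R, 0)] (Loc.comm X L 1 0) (by decide) (by decide)

theorem m10 : LMove [(L, 0), (L, 2), (X, 1), (L, 3), (X, 1), (X, 0), (X, 2), (X, 3), (X, 1), (X, 1), (X, 2), (R, 3), (X, 0), (X, 1), (R, 0), (R, 0)]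
    [(L, 0), (L, 2), (X, 1), (L, 3), (X, 1), (X, 0), (X, 2), (X, 1), (X, 3), (X, 1), (X, 2), (R, 3), (X, 0), (X, 1), (R, 0), (R, 0)] :=
  mk_bwd [(L, 0), (L, 2), (X, 1), (L, 3), (X, 1), (X, 0), (X, 2)] _ _ [(X, 1), (X, 2), (R, 3), (X, 0), (X, 1), (R, 0), (R, 0)] (Loc.comm X X 1 0) (by decide) (by decide)

theorem m11 : LMove [(L, 0), (L, 2), (X, 1), (L, 3), (X, 1), (X, 0), (X, 2), (X, 1), (X, 3), (X, 1), (X, 2), (R, 3), (X, 0), (X, 1), (R, 0), (R, 0)]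
    [(L, 0), (L, 2), (X, 1), (L, 3), (X, 1), (X, 0), (X, 2), (X, 1), (X, 1), (X, 3), (X, 2), (R, 3), (X, 0), (X, 1), (R, 0), (R, 0)] :=
  mk_bwd [(L, 0), (L, 2), (X, 1), (L, 3), (X, 1), (X, 0), (X, 2), (X, 1)] _ _ [(X, 2), (R, 3), (X, 0), (X, 1), (R, 0), (R, 0)] (Loc.comm X X 1 0) (by decide) (by decide)

theorem m12 : LMove [(L, 0), (L, 2), (X, 1), (L, 3), (X, 1), (X, 0), (X, 2), (X, 1), (X, 1), (X, 3), (X, 2), (R, 3), (X, 0), (X, 1), (R, 0), (R, 0)]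
    [(L, 0), (L, 2), (X, 1), (L, 3), (X, 1), (X, 0), (X, 2), (X, 1), (X, 1), (R, 2), (X, 0), (X, 1), (R, 0), (R, 0)] :=
  mk_fwd [(L, 0), (L, 2), (X, 1), (L, 3), (X, 1), (X, 0), (X, 2), (X, 1), (X, 1)] _ _ [(X, 0), (X, 1), (R, 0), (R, 0)] (Loc.r2c 2) (by decide) (by decide)

theorem m13 : LMove [(L, 0), (L, 2), (X, 1), (L, 3), (X, 1), (X, 0), (X, 2), (X, 1), (X, 1), (R, 2), (X, 0), (X, 1), (R, 0), (R, 0)]
    [(L, 0), (L, 2), (X, 1), (L, 3), (X, 1), (X, 0), (X, 2), (X, 1), (X, 1), (R, 2), (R, 1), (R, 0)] :=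
  mk_fwd [(L, 0), (L, 2), (X, 1), (L, 3), (X, 1), (X, 0), (X, 2), (X, 1), (X, 1), (R, 2)] _ _ [(R, 0)] (Loc.r2d 0) (by decide) (by decide)

theorem m14 : LMove [(L, 0), (L, 2), (X, 1), (L, 3), (X, 1), (X, 0), (X, 2), (X, 1), (X, 1), (R, 2), (R, 1), (R, 0)]
    [(L, 0), (L, 2), (X, 1), (L, 1), (X, 2), (R, 1), (L, 3), (X, 1), (X, 0), (X, 2), (X, 1), (X, 1), (R, 2), (R, 1), (R, 0)] :=
  mk_bwd [(L, 0), (L, 2), (X, 1)] _ _ [(L, 3), (X, 1), (X, 0), (X, 2), (X, 1), (X, 1), (R, 2), (R, 1), (R, 0)] (Loc.r1b 1) (by decide) (by decide)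

theorem m15 : LMove [(L, 0), (L, 2), (X, 1), (L, 1), (X, 2), (R, 1), (L, 3), (X, 1), (X, 0), (X, 2), (X, 1), (X, 1), (R, 2), (R, 1), (R, 0)]
    [(L, 0), (L, 2), (X, 1), (L, 1), (X, 2), (R, 1), (X, 1), (L, 3), (X, 0), (X, 2), (X, 1), (X, 1), (R, 2), (R, 1), (R, 0)] :=
  mk_bwd [(L, 0), (L, 2), (X, 1), (L, 1), (X, 2), (R, 1)] _ _ [(X, 0), (X, 2), (X, 1), (X, 1), (R, 2), (R, 1), (R, 0)] (Loc.comm X L 1 0) (by decide) (by decide)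

theorem m16 : LMove [(L, 0), (L, 2), (X, 1), (L, 1), (X, 2), (R, 1), (X, 1), (L, 3), (X, 0), (X, 2), (X, 1), (X, 1), (R, 2), (R, 1), (R, 0)]
    [(L, 0), (L, 2), (X, 1), (L, 1), (X, 2), (X, 3), (R, 1), (L, 3), (X, 0), (X, 2), (X, 1), (X, 1), (R, 2), (R, 1), (R, 0)] :=
  mk_fwd [(L, 0), (L, 2), (X, 1), (L, 1), (X, 2)] _ _ [(L, 3), (X, 0), (X, 2), (X, 1), (X, 1), (R, 2), (R, 1), (R, 0)] (Loc.comm R X 1 0) (by decide) (by decide)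

theorem m17 : LMove [(L, 0), (L, 2), (X, 1), (L, 1), (X, 2), (X, 3), (R, 1), (L, 3), (X, 0), (X, 2), (X, 1), (X, 1), (R, 2), (R, 1), (R, 0)]
    [(L, 0), (L, 2), (L, 1), (X, 3), (X, 2), (X, 3), (R, 1), (L, 3), (X, 0), (X, 2), (X, 1), (X, 1), (R, 2), (R, 1), (R, 0)] :=
  mk_bwd [(L, 0), (L, 2)] _ _ [(X, 2), (X, 3), (R, 1), (L, 3), (X, 0), (X, 2), (X, 1), (X, 1), (R, 2), (R, 1), (R, 0)] (Loc.comm L X 1 0) (by decide) (by decide)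

theorem m18 : LMove [(L, 0), (L, 2), (L, 1), (X, 3), (X, 2), (X, 3), (R, 1), (L, 3), (X, 0), (X, 2), (X, 1), (X, 1), (R, 2), (R, 1), (R, 0)]
    [(L, 0), (L, 2), (L, 1), (X, 2), (X, 3), (X, 2), (R, 1), (L, 3), (X, 0), (X, 2), (X, 1), (X, 1), (R, 2), (R, 1), (R, 0)] :=
  mk_bwd [(L, 0), (L, 2), (L, 1)] _ _ [(R, 1), (L, 3), (X, 0), (X, 2), (X, 1), (X, 1), (R, 2), (R, 1), (R, 0)] (Loc.r3 2) (by decide) (by decide)

theorem m19 : LMove [(L, 0), (L, 2), (L, 1), (X, 2), (X, 3), (X, 2), (R, 1), (L, 3), (X, 0), (X, 2), (X, 1), (X, 1), (R, 2), (R, 1), (R, 0)]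
    [(L, 0), (L, 2), (L, 0), (X, 1), (X, 0), (X, 2), (X, 3), (X, 2), (R, 1), (L, 3), (X, 0), (X, 2), (X, 1), (X, 1), (R, 2), (R, 1), (R, 0)] :=
  mk_bwd [(L, 0), (L, 2)] _ _ [(X, 2), (X, 3), (X, 2), (R, 1), (L, 3), (X, 0), (X, 2), (X, 1), (X, 1), (R, 2), (R, 1), (R, 0)] (Loc.r2b 0) (by decide) (by decide)

theorem m20 : LMove [(L, 0), (L, 2), (L, 0), (X, 1), (X, 0), (X, 2), (X, 3), (X, 2), (R, 1), (L, 3), (X, 0), (X, 2), (X, 1), (X, 1), (R, 2), (R, 1), (R, 0)]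
    [(L, 0), (L, 0), (L, 0), (X, 1), (X, 0), (X, 2), (X, 3), (X, 2), (R, 1), (L, 3), (X, 0), (X, 2), (X, 1), (X, 1), (R, 2), (R, 1), (R, 0)] :=
  mk_fwd [] _ _ [(L, 0), (X, 1), (X, 0), (X, 2), (X, 3), (X, 2), (R, 1), (L, 3), (X, 0), (X, 2), (X, 1), (X, 1), (R, 2), (R, 1), (R, 0)] (Loc.comm L L 0 0) (by decide) (by decide)

theorem m21 : LMove [(L, 0), (L, 0), (L, 0), (X, 1), (X, 0), (X, 2), (X, 3), (X, 2), (R, 1), (L, 3), (X, 0), (X, 2), (X, 1), (X, 1), (R, 2), (R, 1), (R, 0)]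
    [(L, 0), (L, 0), (L, 2), (X, 1), (X, 0), (X, 2), (X, 3), (X, 2), (R, 1), (L, 3), (X, 0), (X, 2), (X, 1), (X, 1), (R, 2), (R, 1), (R, 0)] :=
  mk_bwd [(L, 0)] _ _ [(X, 1), (X, 0), (X, 2), (X, 3), (X, 2), (R, 1), (L, 3), (X, 0), (X, 2), (X, 1), (X, 1), (R, 2), (R, 1), (R, 0)] (Loc.comm L L 0 0) (by decide) (by decide)

theorem m22 : LMove [(L, 0), (L, 0), (L, 2), (X, 1), (X, 0), (X, 2), (X, 3), (X, 2), (R, 1), (L, 3), (X, 0), (X, 2), (X, 1), (X, 1), (R, 2), (R, 1), (R, 0)]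
    [(L, 0), (L, 2), (L, 2), (X, 1), (X, 0), (X, 2), (X, 3), (X, 2), (R, 1), (L, 3), (X, 0), (X, 2), (X, 1), (X, 1), (R, 2), (R, 1), (R, 0)] :=
  mk_bwd [] _ _ [(L, 2), (X, 1), (X, 0), (X, 2), (X, 3), (X, 2), (R, 1), (L, 3), (X, 0), (X, 2), (X, 1), (X, 1), (R, 2), (R, 1), (R, 0)] (Loc.comm L L 0 0) (by decide) (by decide)

theorem m23 : LMove [(L, 0), (L, 2), (L, 2), (X, 1), (X, 0), (X, 2), (X, 3), (X, 2), (R, 1), (L, 3), (X, 0), (X, 2), (X, 1), (X, 1), (R, 2), (R, 1), (R, 0)]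
    [(L, 0), (L, 2), (L, 2), (X, 1), (X, 2), (X, 0), (X, 3), (X, 2), (R, 1), (L, 3), (X, 0), (X, 2), (X, 1), (X, 1), (R, 2), (R, 1), (R, 0)] :=
  mk_fwd [(L, 0), (L, 2), (L, 2), (X, 1)] _ _ [(X, 3), (X, 2), (R, 1), (L, 3), (X, 0), (X, 2), (X, 1), (X, 1), (R, 2), (R, 1), (R, 0)] (Loc.comm X X 0 0) (by decide) (by decide)

theorem m24 : LMove [(L, 0), (L, 2), (L, 2), (X, 1), (X, 2), (X, 0), (X, 3), (X, 2), (R, 1), (L, 3), (X, 0), (X, 2), (X, 1), (X, 1), (R, 2), (R, 1), (R, 0)]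
    [(L, 0), (L, 2), (L, 1), (X, 0), (X, 3), (X, 2), (R, 1), (L, 3), (X, 0), (X, 2), (X, 1), (X, 1), (R, 2), (R, 1), (R, 0)] :=
  mk_fwd [(L, 0), (L, 2)] _ _ [(X, 0), (X, 3), (X, 2), (R, 1), (L, 3), (X, 0), (X, 2), (X, 1), (X, 1), (R, 2), (R, 1), (R, 0)] (Loc.r2a 1) (by decide) (by decide)

theorem m25 : LMove [(L, 0), (L, 2), (L, 1), (X, 0), (X, 3), (X, 2), (R, 1), (L, 3), (X, 0), (X, 2), (X, 1), (X, 1), (R, 2), (R, 1), (R, 0)]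
    [(L, 0), (L, 2), (L, 1), (X, 0), (X, 3), (X, 2), (R, 1), (L, 3), (X, 2), (X, 0), (X, 1), (X, 1), (R, 2), (R, 1), (R, 0)] :=
  mk_fwd [(L, 0), (L, 2), (L, 1), (X, 0), (X, 3), (X, 2), (R, 1), (L, 3)] _ _ [(X, 1), (X, 1), (R, 2), (R, 1), (R, 0)] (Loc.comm X X 0 0) (by decide) (by decide)

theorem m26 : LMove [(L, 0), (L, 2), (L, 1), (X, 0), (X, 3), (X, 2), (R, 1), (L, 3), (X, 2), (X, 0), (X, 1), (X, 1), (R, 2), (R, 1), (R, 0)]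
    [(L, 0), (L, 2), (L, 1), (X, 3), (X, 0), (X, 2), (R, 1), (L, 3), (X, 2), (X, 0), (X, 1), (X, 1), (R, 2), (R, 1), (R, 0)] :=
  mk_fwd [(L, 0), (L, 2), (L, 1)] _ _ [(X, 2), (R, 1), (L, 3), (X, 2), (X, 0), (X, 1), (X, 1), (R, 2), (R, 1), (R, 0)] (Loc.comm X X 0 1) (by decide) (by decide)

theorem m27 : LMove [(L, 0), (L, 2), (L, 1), (X, 3), (X, 0), (X, 2), (R, 1), (L, 3), (X, 2), (X, 0), (X, 1), (X, 1), (R, 2), (R, 1), (R, 0)]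
    [(L, 0), (L, 2), (L, 1), (X, 3), (X, 0), (X, 2), (R, 1), (L, 3), (X, 2), (X, 0), (X, 1), (L, 3), (X, 2), (R, 3), (X, 1), (R, 2), (R, 1), (R, 0)] :=
  mk_bwd [(L, 0), (L, 2), (L, 1), (X, 3), (X, 0), (X, 2), (R, 1), (L, 3), (X, 2), (X, 0), (X, 1)] _ _ [(X, 1), (R, 2), (R, 1), (R, 0)] (Loc.r1a 2) (by decide) (by decide)

theorem m28 : LMove [(L, 0), (L, 2), (L, 1), (X, 3), (X, 0), (X, 2), (R, 1), (L, 3), (X, 2), (X, 0), (X, 1), (L, 3), (X, 2), (R, 3), (X, 1), (R, 2), (R, 1), (R, 0)]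
    [(L, 0), (L, 2), (L, 1), (X, 3), (X, 0), (X, 2), (R, 1), (L, 3), (X, 2), (X, 0), (L, 3), (X, 1), (X, 2), (R, 3), (X, 1), (R, 2), (R, 1), (R, 0)] :=
  mk_fwd [(L, 0), (L, 2), (L, 1), (X, 3), (X, 0), (X, 2), (R, 1), (L, 3), (X, 2), (X, 0)] _ _ [(X, 2), (R, 3), (X, 1), (R, 2), (R, 1), (R, 0)] (Loc.comm X L 1 0) (by decide) (by decide)

theorem m29 : LMove [(L, 0), (L, 2), (L, 1), (X, 3), (X, 0), (X, 2), (R, 1), (L, 3), (X, 2), (X, 0), (L, 3), (X, 1), (X, 2), (R, 3), (X, 1), (R, 2), (R, 1), (R, 0)]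
    [(L, 0), (L, 2), (L, 1), (X, 3), (X, 0), (X, 2), (R, 1), (L, 3), (X, 2), (L, 3), (X, 0), (X, 1), (X, 2), (R, 3), (X, 1), (R, 2), (R, 1), (R, 0)] :=
  mk_fwd [(L, 0), (L, 2), (L, 1), (X, 3), (X, 0), (X, 2), (R, 1), (L, 3), (X, 2)] _ _ [(X, 1), (X, 2), (R, 3), (X, 1), (R, 2), (R, 1), (R, 0)] (Loc.comm X L 0 1) (by decide) (by decide)

theorem m30 : LMove [(L, 0), (L, 2), (L, 1), (X, 3), (X, 0), (X, 2), (R, 1), (L, 3), (X, 2), (L, 3), (X, 0), (X, 1), (X, 2), (R, 3), (X, 1), (R, 2), (R, 1), (R, 0)]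
    [(L, 0), (L, 2), (L, 1), (X, 3), (X, 0), (X, 2), (L, 5), (R, 1), (X, 2), (L, 3), (X, 0), (X, 1), (X, 2), (R, 3), (X, 1), (R, 2), (R, 1), (R, 0)] :=
  mk_fwd [(L, 0), (L, 2), (L, 1), (X, 3), (X, 0), (X, 2)] _ _ [(X, 2), (L, 3), (X, 0), (X, 1), (X, 2), (R, 3), (X, 1), (R, 2), (R, 1), (R, 0)] (Loc.comm R L 1 2) (by decide) (by decide)

theorem m31 : LMove [(L, 0), (L, 2), (L, 1), (X, 3), (X, 0), (X, 2), (L, 5), (R, 1), (X, 2), (L, 3), (X, 0), (X, 1), (X, 2), (R, 3), (X, 1), (R, 2), (R, 1), (R, 0)]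
    [(L, 0), (L, 2), (L, 1), (X, 3), (X, 0), (X, 2), (L, 5), (X, 4), (R, 1), (L, 3), (X, 0), (X, 1), (X, 2), (R, 3), (X, 1), (R, 2), (R, 1), (R, 0)] :=
  mk_fwd [(L, 0), (L, 2), (L, 1), (X, 3), (X, 0), (X, 2), (L, 5)] _ _ [(L, 3), (X, 0), (X, 1), (X, 2), (R, 3), (X, 1), (R, 2), (R, 1), (R, 0)] (Loc.comm R X 1 1) (by decide) (by decide)

theorem m32 : LMove [(L, 0), (L, 2), (L, 1), (X, 3), (X, 0), (X, 2), (L, 5), (X, 4), (R, 1), (L, 3), (X, 0), (X, 1), (X, 2), (R, 3), (X, 1), (R, 2), (R, 1), (R, 0)]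
    [(L, 0), (L, 0), (L, 1), (X, 3), (X, 0), (X, 2), (L, 5), (X, 4), (R, 1), (L, 3), (X, 0), (X, 1), (X, 2), (R, 3), (X, 1), (R, 2), (R, 1), (R, 0)] :=
  mk_fwd [] _ _ [(L, 1), (X, 3), (X, 0), (X, 2), (L, 5), (X, 4), (R, 1), (L, 3), (X, 0), (X, 1), (X, 2), (R, 3), (X, 1), (R, 2), (R, 1), (R, 0)] (Loc.comm L L 0 0) (by decide) (by decide)

theorem m33 : LMove [(L, 0), (L, 0), (L, 1), (X, 3), (X, 0), (X, 2), (L, 5), (X, 4), (R, 1), (L, 3), (X, 0), (X, 1), (X, 2), (R, 3), (X, 1), (R, 2), (R, 1), (R, 0)]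
    [(L, 0), (L, 0), (L, 1), (X, 3), (X, 0), (X, 2), (L, 5), (X, 4), (R, 1), (L, 3), (X, 0), (X, 1), (X, 2), (X, 1), (R, 3), (R, 2), (R, 1), (R, 0)] :=
  mk_bwd [(L, 0), (L, 0), (L, 1), (X, 3), (X, 0), (X, 2), (L, 5), (X, 4), (R, 1), (L, 3), (X, 0), (X, 1), (X, 2)] _ _ [(R, 2), (R, 1), (R, 0)] (Loc.comm X R 1 0) (by decide) (by decide)

theorem m34 : LMove [(L, 0), (L, 0), (L, 1), (X, 3), (X, 0), (X, 2), (L, 5), (X, 4), (R, 1), (L, 3), (X, 0), (X, 1), (X, 2), (X, 1), (R, 3), (R, 2), (R, 1), (R, 0)]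
    [(L, 0), (L, 0), (L, 1), (X, 3), (X, 0), (X, 2), (L, 5), (X, 4), (R, 1), (L, 3), (X, 0), (X, 2), (X, 1), (X, 2), (R, 3), (R, 2), (R, 1), (R, 0)] :=
  mk_fwd [(L, 0), (L, 0), (L, 1), (X, 3), (X, 0), (X, 2), (L, 5), (X, 4), (R, 1), (L, 3), (X, 0)] _ _ [(R, 3), (R, 2), (R, 1), (R, 0)] (Loc.r3 1) (by decide) (by decide)

theorem m35 : LMove [(L, 0), (L, 0), (L, 1), (X, 3), (X, 0), (X, 2), (L, 5), (X, 4), (R, 1), (L, 3), (X, 0), (X, 2), (X, 1), (X, 2), (R, 3), (R, 2), (R, 1), (R, 0)]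
    [(L, 0), (L, 0), (L, 1), (X, 3), (X, 0), (X, 2), (L, 5), (X, 4), (R, 1), (L, 3), (X, 2), (X, 0), (X, 1), (X, 2), (R, 3), (R, 2), (R, 1), (R, 0)] :=
  mk_fwd [(L, 0), (L, 0), (L, 1), (X, 3), (X, 0), (X, 2), (L, 5), (X, 4), (R, 1), (L, 3)] _ _ [(X, 1), (X, 2), (R, 3), (R, 2), (R, 1), (R, 0)] (Loc.comm X X 0 0) (by decide) (by decide)

theorem m36 : LMove [(L, 0), (L, 0), (L, 1), (X, 3), (X, 0), (X, 2), (L, 5), (X, 4), (R, 1), (L, 3), (X, 2), (X, 0), (X, 1), (X, 2), (R, 3), (R, 2), (R, 1), (R, 0)]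
    [(L, 0), (L, 0), (L, 1), (X, 3), (X, 0), (X, 2), (L, 5), (X, 4), (L, 5), (R, 1), (X, 2), (X, 0), (X, 1), (X, 2), (R, 3), (R, 2), (R, 1), (R, 0)] :=
  mk_fwd [(L, 0), (L, 0), (L, 1), (X, 3), (X, 0), (X, 2), (L, 5), (X, 4)] _ _ [(X, 2), (X, 0), (X, 1), (X, 2), (R, 3), (R, 2), (R, 1), (R, 0)] (Loc.comm R L 1 2) (by decide) (by decide)

theorem m37 : LMove [(L, 0), (L, 0), (L, 1), (X, 3), (X, 0), (X, 2), (L, 5), (X, 4), (L, 5), (R, 1), (X, 2), (X, 0), (X, 1), (X, 2), (R, 3), (R, 2), (R, 1), (R, 0)]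
    [(L, 0), (L, 0), (L, 1), (X, 3), (X, 0), (L, 5), (X, 2), (X, 4), (L, 5), (R, 1), (X, 2), (X, 0), (X, 1), (X, 2), (R, 3), (R, 2), (R, 1), (R, 0)] :=
  mk_fwd [(L, 0), (L, 0), (L, 1), (X, 3), (X, 0)] _ _ [(X, 4), (L, 5), (R, 1), (X, 2), (X, 0), (X, 1), (X, 2), (R, 3), (R, 2), (R, 1), (R, 0)] (Loc.comm X L 2 1) (by decide) (by decide)

theorem m38 : LMove [(L, 0), (L, 0), (L, 1), (X, 3), (X, 0), (L, 5), (X, 2), (X, 4), (L, 5), (R, 1), (X, 2), (X, 0), (X, 1), (X, 2), (R, 3), (R, 2), (R, 1), (R, 0)]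
    [(L, 0), (L, 0), (L, 1), (X, 3), (L, 5), (X, 0), (X, 2), (X, 4), (L, 5), (R, 1), (X, 2), (X, 0), (X, 1), (X, 2), (R, 3), (R, 2), (R, 1), (R, 0)] :=
  mk_fwd [(L, 0), (L, 0), (L, 1), (X, 3)] _ _ [(X, 2), (X, 4), (L, 5), (R, 1), (X, 2), (X, 0), (X, 1), (X, 2), (R, 3), (R, 2), (R, 1), (R, 0)] (Loc.comm X L 0 3) (by decide) (by decide)

theorem m39 : LMove [(L, 0), (L, 0), (L, 1), (X, 3), (L, 5), (X, 0), (X, 2), (X, 4), (L, 5), (R, 1), (X, 2), (X, 0), (X, 1), (X, 2), (R, 3), (R, 2), (R, 1), (R, 0)]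
    [(L, 0), (L, 0), (X, 1), (L, 1), (L, 5), (X, 0), (X, 2), (X, 4), (L, 5), (R, 1), (X, 2), (X, 0), (X, 1), (X, 2), (R, 3), (R, 2), (R, 1), (R, 0)] :=
  mk_fwd [(L, 0), (L, 0)] _ _ [(L, 5), (X, 0), (X, 2), (X, 4), (L, 5), (R, 1), (X, 2), (X, 0), (X, 1), (X, 2), (R, 3), (R, 2), (R, 1), (R, 0)] (Loc.comm L X 1 0) (by decide) (by decide)

theorem m40 : LMove [(L, 0), (L, 0), (X, 1), (L, 1), (L, 5), (X, 0), (X, 2), (X, 4), (L, 5), (R, 1), (X, 2), (X, 0), (X, 1), (X, 2), (R, 3), (R, 2), (R, 1), (R, 0)]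
    [(L, 0), (L, 0), (X, 1), (L, 1), (L, 5), (X, 0), (X, 2), (X, 4), (L, 5), (R, 1), (X, 2), (X, 0), (X, 1), (X, 2), (R, 3), (R, 2), (X, 0), (X, 1), (R, 0), (R, 0)] :=
  mk_bwd [(L, 0), (L, 0), (X, 1), (L, 1), (L, 5), (X, 0), (X, 2), (X, 4), (L, 5), (R, 1), (X, 2), (X, 0), (X, 1), (X, 2), (R, 3), (R, 2)] _ _ [(R, 0)] (Loc.r2d 0) (by decide) (by decide)

theorem m41 : LMove [(L, 0), (L, 0), (X, 1), (L, 1), (L, 5), (X, 0), (X, 2), (X, 4), (L, 5), (R, 1), (X, 2), (X, 0), (X, 1), (X, 2), (R, 3), (R, 2), (X, 0), (X, 1), (R, 0), (R, 0)]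
    [(L, 0), (L, 0), (X, 1), (L, 3), (L, 1), (X, 0), (X, 2), (X, 4), (L, 5), (R, 1), (X, 2), (X, 0), (X, 1), (X, 2), (R, 3), (R, 2), (X, 0), (X, 1), (R, 0), (R, 0)] :=
  mk_fwd [(L, 0), (L, 0), (X, 1)] _ _ [(X, 0), (X, 2), (X, 4), (L, 5), (R, 1), (X, 2), (X, 0), (X, 1), (X, 2), (R, 3), (R, 2), (X, 0), (X, 1), (R, 0), (R, 0)] (Loc.comm L L 1 2) (by decide) (by decide)

theorem m42 : LMove [(L, 0), (L, 0), (X, 1), (L, 3), (L, 1), (X, 0), (X, 2), (X, 4), (L, 5), (R, 1), (X, 2), (X, 0), (X, 1), (X, 2), (R, 3), (R, 2), (X, 0), (X, 1), (R, 0), (R, 0)]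
    [(L, 0), (L, 0), (L, 3), (X, 1), (L, 1), (X, 0), (X, 2), (X, 4), (L, 5), (R, 1), (X, 2), (X, 0), (X, 1), (X, 2), (R, 3), (R, 2), (X, 0), (X, 1), (R, 0), (R, 0)] :=
  mk_fwd [(L, 0), (L, 0)] _ _ [(L, 1), (X, 0), (X, 2), (X, 4), (L, 5), (R, 1), (X, 2), (X, 0), (X, 1), (X, 2), (R, 3), (R, 2), (X, 0), (X, 1), (R, 0), (R, 0)] (Loc.comm X L 1 0) (by decide) (by decide)

theorem m43 : LMove [(L, 0), (L, 0), (L, 3), (X, 1), (L, 1), (X, 0), (X, 2), (X, 4), (L, 5), (R, 1), (X, 2), (X, 0), (X, 1), (X, 2), (R, 3), (R, 2), (X, 0), (X, 1), (R, 0), (R, 0)]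
    [(L, 0), (L, 0), (L, 3), (X, 1), (L, 1), (X, 0), (X, 2), (X, 4), (L, 5), (R, 1), (X, 2), (X, 0), (X, 1), (X, 2), (R, 3), (X, 0), (R, 2), (X, 1), (R, 0), (R, 0)] :=
  mk_bwd [(L, 0), (L, 0), (L, 3), (X, 1), (L, 1), (X, 0), (X, 2), (X, 4), (L, 5), (R, 1), (X, 2), (X, 0), (X, 1), (X, 2), (R, 3)] _ _ [(X, 1), (R, 0), (R, 0)] (Loc.comm X R 0 0) (by decide) (by decide)

theorem m44 : LMove [(L, 0), (L, 0), (L, 3), (X, 1), (L, 1), (X, 0), (X, 2), (X, 4), (L, 5), (R, 1), (X, 2), (X, 0), (X, 1), (X, 2), (R, 3), (X, 0), (R, 2), (X, 1), (R, 0), (R, 0)]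
    [(L, 0), (L, 0), (L, 3), (X, 1), (L, 1), (X, 0), (X, 2), (X, 4), (L, 5), (R, 1), (X, 2), (X, 0), (X, 1), (X, 2), (X, 0), (R, 3), (R, 2), (X, 1), (R, 0), (R, 0)] :=
  mk_bwd [(L, 0), (L, 0), (L, 3), (X, 1), (L, 1), (X, 0), (X, 2), (X, 4), (L, 5), (R, 1), (X, 2), (X, 0), (X, 1), (X, 2)] _ _ [(R, 2), (X, 1), (R, 0), (R, 0)] (Loc.comm X R 0 1) (by decide) (by decide)

theorem m45 : LMove [(L, 0), (L, 0), (L, 3), (X, 1), (L, 1), (X, 0), (X, 2), (X, 4), (L, 5), (R, 1), (X, 2), (X, 0), (X, 1), (X, 2), (X, 0), (R, 3), (R, 2), (X, 1), (R, 0), (R, 0)]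
    [(L, 0), (L, 0), (L, 3), (X, 1), (L, 1), (X, 0), (X, 2), (X, 4), (L, 5), (R, 1), (X, 2), (X, 0), (X, 1), (X, 0), (X, 2), (R, 3), (R, 2), (X, 1), (R, 0), (R, 0)] :=
  mk_bwd [(L, 0), (L, 0), (L, 3), (X, 1), (L, 1), (X, 0), (X, 2), (X, 4), (L, 5), (R, 1), (X, 2), (X, 0), (X, 1)] _ _ [(R, 3), (R, 2), (X, 1), (R, 0), (R, 0)] (Loc.comm X X 0 0) (by decide) (by decide)

theorem m46 : LMove [(L, 0), (L, 0), (L, 3), (X, 1), (L, 1), (X, 0), (X, 2), (X, 4), (L, 5), (R, 1), (X, 2), (X, 0), (X, 1), (X, 0), (X, 2), (R, 3), (R, 2), (X, 1), (R, 0), (R, 0)]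
    [(L, 0), (L, 0), (L, 3), (X, 1), (L, 1), (X, 0), (X, 2), (X, 4), (L, 5), (R, 1), (X, 2), (X, 1), (X, 0), (X, 1), (X, 2), (R, 3), (R, 2), (X, 1), (R, 0), (R, 0)] :=
  mk_fwd [(L, 0), (L, 0), (L, 3), (X, 1), (L, 1), (X, 0), (X, 2), (X, 4), (L, 5), (R, 1), (X, 2)] _ _ [(X, 2), (R, 3), (R, 2), (X, 1), (R, 0), (R, 0)] (Loc.r3 0) (by decide) (by decide)

theorem m47 : LMove [(L, 0), (L, 0), (L, 3), (X, 1), (L, 1), (X, 0), (X, 2), (X, 4), (L, 5), (R, 1), (X, 2), (X, 1), (X, 0), (X, 1), (X, 2), (R, 3), (R, 2), (X, 1), (R, 0), (R, 0)]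
    [(L, 0), (L, 0), (L, 3), (X, 1), (L, 1), (X, 0), (X, 2), (X, 4), (L, 5), (X, 4), (R, 1), (X, 1), (X, 0), (X, 1), (X, 2), (R, 3), (R, 2), (X, 1), (R, 0), (R, 0)] :=
  mk_fwd [(L, 0), (L, 0), (L, 3), (X, 1), (L, 1), (X, 0), (X, 2), (X, 4), (L, 5)] _ _ [(X, 1), (X, 0), (X, 1), (X, 2), (R, 3), (R, 2), (X, 1), (R, 0), (R, 0)] (Loc.comm R X 1 1) (by decide) (by decide)

theorem m48 : LMove [(L, 0), (L, 0), (L, 3), (X, 1), (L, 1), (X, 0), (X, 2), (X, 4), (L, 5), (X, 4), (R, 1), (X, 1), (X, 0), (X, 1), (X, 2), (R, 3), (R, 2), (X, 1), (R, 0), (R, 0)]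
    [(L, 0), (L, 0), (L, 3), (X, 1), (L, 1), (X, 0), (X, 2), (X, 4), (L, 5), (X, 4), (X, 3), (R, 1), (X, 0), (X, 1), (X, 2), (R, 3), (R, 2), (X, 1), (R, 0), (R, 0)] :=
  mk_fwd [(L, 0), (L, 0), (L, 3), (X, 1), (L, 1), (X, 0), (X, 2), (X, 4), (L, 5), (X, 4)] _ _ [(X, 0), (X, 1), (X, 2), (R, 3), (R, 2), (X, 1), (R, 0), (R, 0)] (Loc.comm R X 1 0) (by decide) (by decide)

theorem m49 : LMove [(L, 0), (L, 0), (L, 3), (X, 1), (L, 1), (X, 0), (X, 2), (X, 4), (L, 5), (X, 4), (X, 3), (R, 1), (X, 0), (X, 1), (X, 2), (R, 3), (R, 2), (X, 1), (R, 0), (R, 0)]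
    [(L, 0), (L, 0), (L, 3), (X, 1), (L, 1), (X, 0), (X, 2), (X, 4), (L, 5), (X, 4), (X, 3), (X, 2), (X, 1), (R, 2), (X, 0), (X, 1), (X, 2), (R, 3), (R, 2), (X, 1), (R, 0), (R, 0)] :=
  mk_bwd [(L, 0), (L, 0), (L, 3), (X, 1), (L, 1), (X, 0), (X, 2), (X, 4), (L, 5), (X, 4), (X, 3)] _ _ [(X, 0), (X, 1), (X, 2), (R, 3), (R, 2), (X, 1), (R, 0), (R, 0)] (Loc.r2c 1) (by decide) (by decide)

theorem m50 : LMove [(L, 0), (L, 0), (L, 3), (X, 1), (L, 1), (X, 0), (X, 2), (X, 4), (L, 5), (X, 4), (X, 3), (X, 2), (X, 1), (R, 2), (X, 0), (X, 1), (X, 2), (R, 3), (R, 2), (X, 1), (R, 0), (R, 0)]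
    [(L, 0), (L, 0), (L, 3), (X, 1), (L, 1), (X, 0), (X, 4), (X, 2), (L, 5), (X, 4), (X, 3), (X, 2), (X, 1), (R, 2), (X, 0), (X, 1), (X, 2), (R, 3), (R, 2), (X, 1), (R, 0), (R, 0)] :=
  mk_fwd [(L, 0), (L, 0), (L, 3), (X, 1), (L, 1), (X, 0)] _ _ [(L, 5), (X, 4), (X, 3), (X, 2), (X, 1), (R, 2), (X, 0), (X, 1), (X, 2), (R, 3), (R, 2), (X, 1), (R, 0), (R, 0)] (Loc.comm X X 2 0) (by decide) (by decide)

theorem m51 : LMove [(L, 0), (L, 0), (L, 3), (X, 1), (L, 1), (X, 0), (X, 4), (X, 2), (L, 5), (X, 4), (X, 3), (X, 2), (X, 1), (R, 2), (X, 0), (X, 1), (X, 2), (R, 3), (R, 2), (X, 1), (R, 0), (R, 0)]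
    [(L, 0), (L, 0), (L, 3), (X, 1), (L, 1), (X, 0), (X, 4), (L, 5), (X, 2), (X, 4), (X, 3), (X, 2), (X, 1), (R, 2), (X, 0), (X, 1), (X, 2), (R, 3), (R, 2), (X, 1), (R, 0), (R, 0)] :=
  mk_fwd [(L, 0), (L, 0), (L, 3), (X, 1), (L, 1), (X, 0), (X, 4)] _ _ [(X, 4), (X, 3), (X, 2), (X, 1), (R, 2), (X, 0), (X, 1), (X, 2), (R, 3), (R, 2), (X, 1), (R, 0), (R, 0)] (Loc.comm X L 2 1) (by decide) (by decide)

theorem m52 : LMove [(L, 0), (L, 0), (L, 3), (X, 1), (L, 1), (X, 0), (X, 4), (L, 5), (X, 2), (X, 4), (X, 3), (X, 2), (X, 1), (R, 2), (X, 0), (X, 1), (X, 2), (R, 3), (R, 2), (X, 1), (R, 0), (R, 0)]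
    [(L, 0), (L, 0), (L, 3), (X, 1), (L, 1), (X, 0), (X, 4), (L, 5), (X, 4), (X, 2), (X, 3), (X, 2), (X, 1), (R, 2), (X, 0), (X, 1), (X, 2), (R, 3), (R, 2), (X, 1), (R, 0), (R, 0)] :=
  mk_fwd [(L, 0), (L, 0), (L, 3), (X, 1), (L, 1), (X, 0), (X, 4), (L, 5)] _ _ [(X, 3), (X, 2), (X, 1), (R, 2), (X, 0), (X, 1), (X, 2), (R, 3), (R, 2), (X, 1), (R, 0), (R, 0)] (Loc.comm X X 2 0) (by decide) (by decide)

theorem m53 : LMove [(L, 0), (L, 0), (L, 3), (X, 1), (L, 1), (X, 0), (X, 4), (L, 5), (X, 4), (X, 2), (X, 3), (X, 2), (X, 1), (R, 2), (X, 0), (X, 1), (X, 2), (R, 3), (R, 2), (X, 1), (R, 0), (R, 0)]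
    [(L, 0), (L, 0), (L, 3), (X, 1), (L, 1), (X, 0), (X, 4), (L, 5), (X, 4), (X, 3), (X, 2), (X, 3), (X, 1), (R, 2), (X, 0), (X, 1), (X, 2), (R, 3), (R, 2), (X, 1), (R, 0), (R, 0)] :=
  mk_fwd [(L, 0), (L, 0), (L, 3), (X, 1), (L, 1), (X, 0), (X, 4), (L, 5), (X, 4)] _ _ [(X, 1), (R, 2), (X, 0), (X, 1), (X, 2), (R, 3), (R, 2), (X, 1), (R, 0), (R, 0)] (Loc.r3 2) (by decide) (by decide)

theorem m54 : LMove [(L, 0), (L, 0), (L, 3), (X, 1), (L, 1), (X, 0), (X, 4), (L, 5), (X, 4), (X, 3), (X, 2), (X, 3), (X, 1), (R, 2), (X, 0), (X, 1), (X, 2), (R, 3), (R, 2), (X, 1), (R, 0), (R, 0)]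
    [(L, 0), (L, 0), (L, 3), (X, 1), (L, 1), (X, 0), (X, 4), (L, 5), (X, 4), (X, 3), (X, 2), (X, 3), (X, 1), (X, 0), (R, 2), (X, 1), (X, 2), (R, 3), (R, 2), (X, 1), (R, 0), (R, 0)] :=
  mk_bwd [(L, 0), (L, 0), (L, 3), (X, 1), (L, 1), (X, 0), (X, 4), (L, 5), (X, 4), (X, 3), (X, 2), (X, 3), (X, 1)] _ _ [(X, 1), (X, 2), (R, 3), (R, 2), (X, 1), (R, 0), (R, 0)] (Loc.comm X R 0 0) (by decide) (by decide)

theorem m55 : LMove [(L, 0), (L, 0), (L, 3), (X, 1), (L, 1), (X, 0), (X, 4), (L, 5), (X, 4), (X, 3), (X, 2), (X, 3), (X, 1), (X, 0), (R, 2), (X, 1), (X, 2), (R, 3), (R, 2), (X, 1), (R, 0), (R, 0)]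
    [(L, 0), (L, 0), (L, 3), (X, 1), (L, 1), (X, 0), (X, 4), (L, 5), (X, 4), (X, 3), (X, 2), (X, 1), (X, 3), (X, 0), (R, 2), (X, 1), (X, 2), (R, 3), (R, 2), (X, 1), (R, 0), (R, 0)] :=
  mk_bwd [(L, 0), (L, 0), (L, 3), (X, 1), (L, 1), (X, 0), (X, 4), (L, 5), (X, 4), (X, 3), (X, 2)] _ _ [(X, 0), (R, 2), (X, 1), (X, 2), (R, 3), (R, 2), (X, 1), (R, 0), (R, 0)] (Loc.comm X X 1 0) (by decide) (by decide)

theorem m56 : LMove [(L, 0), (L, 0), (L, 3), (X, 1), (L, 1), (X, 0), (X, 4), (L, 5), (X, 4), (X, 3), (X, 2), (X, 1), (X, 3), (X, 0), (R, 2), (X, 1), (X, 2), (R, 3), (R, 2), (X, 1), (R, 0), (R, 0)]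
    [(L, 0), (L, 0), (L, 3), (X, 1), (L, 1), (X, 0), (X, 4), (L, 5), (X, 4), (X, 3), (X, 2), (X, 1), (X, 0), (X, 3), (R, 2), (X, 1), (X, 2), (R, 3), (R, 2), (X, 1), (R, 0), (R, 0)] :=
  mk_bwd [(L, 0), (L, 0), (L, 3), (X, 1), (L, 1), (X, 0), (X, 4), (L, 5), (X, 4), (X, 3), (X, 2), (X, 1)] _ _ [(R, 2), (X, 1), (X, 2), (R, 3), (R, 2), (X, 1), (R, 0), (R, 0)] (Loc.comm X X 0 1) (by decide) (by decide)

theorem m57 : LMove [(L, 0), (L, 0), (L, 3), (X, 1), (L, 1), (X, 0), (X, 4), (L, 5), (X, 4), (X, 3), (X, 2), (X, 1), (X, 0), (X, 3), (R, 2), (X, 1), (X, 2), (R, 3), (R, 2), (X, 1), (R, 0), (R, 0)]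
    [(L, 0), (L, 0), (L, 3), (X, 1), (L, 1), (X, 4), (X, 0), (L, 5), (X, 4), (X, 3), (X, 2), (X, 1), (X, 0), (X, 3), (R, 2), (X, 1), (X, 2), (R, 3), (R, 2), (X, 1), (R, 0), (R, 0)] :=
  mk_fwd [(L, 0), (L, 0), (L, 3), (X, 1), (L, 1)] _ _ [(L, 5), (X, 4), (X, 3), (X, 2), (X, 1), (X, 0), (X, 3), (R, 2), (X, 1), (X, 2), (R, 3), (R, 2), (X, 1), (R, 0), (R, 0)] (Loc.comm X X 0 2) (by decide) (by decide)

theorem m58 : LMove [(L, 0), (L, 0), (L, 3), (X, 1), (L, 1), (X, 4), (X, 0), (L, 5), (X, 4), (X, 3), (X, 2), (X, 1), (X, 0), (X, 3), (R, 2), (X, 1), (X, 2), (R, 3), (R, 2), (X, 1), (R, 0), (R, 0)]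
    [(L, 0), (L, 0), (L, 3), (X, 1), (L, 1), (X, 4), (L, 5), (X, 0), (X, 4), (X, 3), (X, 2), (X, 1), (X, 0), (X, 3), (R, 2), (X, 1), (X, 2), (R, 3), (R, 2), (X, 1), (R, 0), (R, 0)] :=
  mk_fwd [(L, 0), (L, 0), (L, 3), (X, 1), (L, 1), (X, 4)] _ _ [(X, 4), (X, 3), (X, 2), (X, 1), (X, 0), (X, 3), (R, 2), (X, 1), (X, 2), (R, 3), (R, 2), (X, 1), (R, 0), (R, 0)] (Loc.comm X L 0 3) (by decide) (by decide)

theorem m59 : LMove [(L, 0), (L, 0), (L, 3), (X, 1), (L, 1), (X, 4), (L, 5), (X, 0), (X, 4), (X, 3), (X, 2), (X, 1), (X, 0), (X, 3), (R, 2), (X, 1), (X, 2), (R, 3), (R, 2), (X, 1), (R, 0), (R, 0)]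
    [(L, 0), (L, 0), (L, 3), (X, 1), (L, 1), (X, 4), (L, 5), (X, 4), (X, 0), (X, 3), (X, 2), (X, 1), (X, 0), (X, 3), (R, 2), (X, 1), (X, 2), (R, 3), (R, 2), (X, 1), (R, 0), (R, 0)] :=
  mk_fwd [(L, 0), (L, 0), (L, 3), (X, 1), (L, 1), (X, 4), (L, 5)] _ _ [(X, 3), (X, 2), (X, 1), (X, 0), (X, 3), (R, 2), (X, 1), (X, 2), (R, 3), (R, 2), (X, 1), (R, 0), (R, 0)] (Loc.comm X X 0 2) (by decide) (by decide)

theorem m60 : LMove [(L, 0), (L, 0), (L, 3), (X, 1), (L, 1), (X, 4), (L, 5), (X, 4), (X, 0), (X, 3), (X, 2), (X, 1), (X, 0), (X, 3), (R, 2), (X, 1), (X, 2), (R, 3), (R, 2), (X, 1), (R, 0), (R, 0)]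
    [(L, 0), (L, 0), (L, 3), (X, 1), (L, 1), (X, 4), (L, 5), (X, 4), (X, 3), (X, 0), (X, 2), (X, 1), (X, 0), (X, 3), (R, 2), (X, 1), (X, 2), (R, 3), (R, 2), (X, 1), (R, 0), (R, 0)] :=
  mk_fwd [(L, 0), (L, 0), (L, 3), (X, 1), (L, 1), (X, 4), (L, 5), (X, 4)] _ _ [(X, 2), (X, 1), (X, 0), (X, 3), (R, 2), (X, 1), (X, 2), (R, 3), (R, 2), (X, 1), (R, 0), (R, 0)] (Loc.comm X X 0 1) (by decide) (by decide)

theorem m61 : LMove [(L, 0), (L, 0), (L, 3), (X, 1), (L, 1), (X, 4), (L, 5), (X, 4), (X, 3), (X, 0), (X, 2), (X, 1), (X, 0), (X, 3), (R, 2), (X, 1), (X, 2), (R, 3), (R, 2), (X, 1), (R, 0), (R, 0)]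
    [(L, 0), (L, 0), (L, 3), (X, 1), (L, 1), (X, 4), (L, 5), (X, 4), (X, 3), (X, 2), (X, 0), (X, 1), (X, 0), (X, 3), (R, 2), (X, 1), (X, 2), (R, 3), (R, 2), (X, 1), (R, 0), (R, 0)] :=
  mk_fwd [(L, 0), (L, 0), (L, 3), (X, 1), (L, 1), (X, 4), (L, 5), (X, 4), (X, 3)] _ _ [(X, 1), (X, 0), (X, 3), (R, 2), (X, 1), (X, 2), (R, 3), (R, 2), (X, 1), (R, 0), (R, 0)] (Loc.comm X X 0 0) (by decide) (by decide)

theorem m62 : LMove [(L, 0), (L, 0), (L, 3), (X, 1), (L, 1), (X, 4), (L, 5), (X, 4), (X, 3), (X, 2), (X, 0), (X, 1), (X, 0), (X, 3), (R, 2), (X, 1), (X, 2), (R, 3), (R, 2), (X, 1), (R, 0), (R, 0)]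
    [(L, 0), (L, 0), (L, 3), (X, 1), (L, 1), (X, 4), (L, 5), (X, 4), (X, 3), (X, 2), (X, 1), (X, 0), (X, 1), (X, 3), (R, 2), (X, 1), (X, 2), (R, 3), (R, 2), (X, 1), (R, 0), (R, 0)] :=
  mk_fwd [(L, 0), (L, 0), (L, 3), (X, 1), (L, 1), (X, 4), (L, 5), (X, 4), (X, 3), (X, 2)] _ _ [(X, 3), (R, 2), (X, 1), (X, 2), (R, 3), (R, 2), (X, 1), (R, 0), (R, 0)] (Loc.r3 0) (by decide) (by decide)

theorem m63 : LMove [(L, 0), (L, 0), (L, 3), (X, 1), (L, 1), (X, 4), (L, 5), (X, 4), (X, 3), (X, 2), (X, 1), (X, 0), (X, 1), (X, 3), (R, 2), (X, 1), (X, 2), (R, 3), (R, 2), (X, 1), (R, 0), (R, 0)]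
    [(L, 0), (L, 0), (L, 3), (X, 1), (L, 1), (X, 4), (L, 5), (X, 4), (X, 3), (X, 2), (X, 1), (X, 0), (X, 1), (X, 3), (R, 2), (X, 1), (X, 2), (R, 3), (R, 2), (X, 1), (R, 2), (R, 0)] :=
  mk_fwd [(L, 0), (L, 0), (L, 3), (X, 1), (L, 1), (X, 4), (L, 5), (X, 4), (X, 3), (X, 2), (X, 1), (X, 0), (X, 1), (X, 3), (R, 2), (X, 1), (X, 2), (R, 3), (R, 2), (X, 1)] _ _ [] (Loc.comm R R 0 0) (by decide) (by decide)

theorem m64 : LMove [(L, 0), (L, 0), (L, 3), (X, 1), (L, 1), (X, 4), (L, 5), (X, 4), (X, 3), (X, 2), (X, 1), (X, 0), (X, 1), (X, 3), (R, 2), (X, 1), (X, 2), (R, 3), (R, 2), (X, 1), (R, 2), (R, 0)]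
    [(L, 0), (L, 0), (L, 3), (X, 1), (X, 2), (L, 1), (L, 5), (X, 4), (X, 3), (X, 2), (X, 1), (X, 0), (X, 1), (X, 3), (R, 2), (X, 1), (X, 2), (R, 3), (R, 2), (X, 1), (R, 2), (R, 0)] :=
  mk_fwd [(L, 0), (L, 0), (L, 3), (X, 1)] _ _ [(L, 5), (X, 4), (X, 3), (X, 2), (X, 1), (X, 0), (X, 1), (X, 3), (R, 2), (X, 1), (X, 2), (R, 3), (R, 2), (X, 1), (R, 2), (R, 0)] (Loc.comm L X 1 1) (by decide) (by decide)

theorem m65 : LMove [(L, 0), (L, 0), (L, 3), (X, 1), (X, 2), (L, 1), (L, 5), (X, 4), (X, 3), (X, 2), (X, 1), (X, 0), (X, 1), (X, 3), (R, 2), (X, 1), (X, 2), (R, 3), (R, 2), (X, 1), (R, 2), (R, 0)]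
    [(L, 0), (L, 0), (L, 3), (X, 1), (X, 2), (L, 3), (L, 1), (X, 4), (X, 3), (X, 2), (X, 1), (X, 0), (X, 1), (X, 3), (R, 2), (X, 1), (X, 2), (R, 3), (R, 2), (X, 1), (R, 2), (R, 0)] :=
  mk_fwd [(L, 0), (L, 0), (L, 3), (X, 1), (X, 2)] _ _ [(X, 4), (X, 3), (X, 2), (X, 1), (X, 0), (X, 1), (X, 3), (R, 2), (X, 1), (X, 2), (R, 3), (R, 2), (X, 1), (R, 2), (R, 0)] (Loc.comm L L 1 2) (by decide) (by decide)

theorem m66 : LMove [(L, 0), (L, 0), (L, 3), (X, 1), (X, 2), (L, 3), (L, 1), (X, 4), (X, 3), (X, 2), (X, 1), (X, 0), (X, 1), (X, 3), (R, 2), (X, 1), (X, 2), (R, 3), (R, 2), (X, 1), (R, 2), (R, 0)]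
    [(L, 0), (L, 0), (L, 3), (X, 1), (X, 2), (L, 3), (X, 2), (L, 1), (X, 3), (X, 2), (X, 1), (X, 0), (X, 1), (X, 3), (R, 2), (X, 1), (X, 2), (R, 3), (R, 2), (X, 1), (R, 2), (R, 0)] :=
  mk_fwd [(L, 0), (L, 0), (L, 3), (X, 1), (X, 2), (L, 3)] _ _ [(X, 3), (X, 2), (X, 1), (X, 0), (X, 1), (X, 3), (R, 2), (X, 1), (X, 2), (R, 3), (R, 2), (X, 1), (R, 2), (R, 0)] (Loc.comm L X 1 1) (by decide) (by decide)

theorem m67 : LMove [(L, 0), (L, 0), (L, 3), (X, 1), (X, 2), (L, 3), (X, 2), (L, 1), (X, 3), (X, 2), (X, 1), (X, 0), (X, 1), (X, 3), (R, 2), (X, 1), (X, 2), (R, 3), (R, 2), (X, 1), (R, 2), (R, 0)]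
    [(L, 0), (L, 0), (L, 3), (X, 1), (X, 2), (L, 3), (X, 2), (X, 1), (L, 1), (X, 2), (X, 1), (X, 0), (X, 1), (X, 3), (R, 2), (X, 1), (X, 2), (R, 3), (R, 2), (X, 1), (R, 2), (R, 0)] :=
  mk_fwd [(L, 0), (L, 0), (L, 3), (X, 1), (X, 2), (L, 3), (X, 2)] _ _ [(X, 2), (X, 1), (X, 0), (X, 1), (X, 3), (R, 2), (X, 1), (X, 2), (R, 3), (R, 2), (X, 1), (R, 2), (R, 0)] (Loc.comm L X 1 0) (by decide) (by decide)

theorem m68 : LMove [(L, 0), (L, 0), (L, 3), (X, 1), (X, 2), (L, 3), (X, 2), (X, 1), (L, 1), (X, 2), (X, 1), (X, 0), (X, 1), (X, 3), (R, 2), (X, 1), (X, 2), (R, 3), (R, 2), (X, 1), (R, 2), (R, 0)]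
    [(L, 0), (L, 2), (L, 3), (X, 1), (X, 2), (L, 3), (X, 2), (X, 1), (L, 1), (X, 2), (X, 1), (X, 0), (X, 1), (X, 3), (R, 2), (X, 1), (X, 2), (R, 3), (R, 2), (X, 1), (R, 2), (R, 0)] :=
  mk_bwd [] _ _ [(L, 3), (X, 1), (X, 2), (L, 3), (X, 2), (X, 1), (L, 1), (X, 2), (X, 1), (X, 0), (X, 1), (X, 3), (R, 2), (X, 1), (X, 2), (R, 3), (R, 2), (X, 1), (R, 2), (R, 0)] (Loc.comm L L 0 0) (by decide) (by decide)

theorem m69 : LMove [(L, 0), (L, 2), (L, 3), (X, 1), (X, 2), (L, 3), (X, 2), (X, 1), (L, 1), (X, 2), (X, 1), (X, 0), (X, 1), (X, 3), (R, 2), (X, 1), (X, 2), (R, 3), (R, 2), (X, 1), (R, 2), (R, 0)]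
    [(L, 0), (L, 2), (L, 3), (X, 1), (X, 2), (L, 3), (X, 2), (X, 1), (L, 2), (X, 0), (X, 1), (X, 3), (R, 2), (X, 1), (X, 2), (R, 3), (R, 2), (X, 1), (R, 2), (R, 0)] :=
  mk_fwd [(L, 0), (L, 2), (L, 3), (X, 1), (X, 2), (L, 3), (X, 2), (X, 1)] _ _ [(X, 0), (X, 1), (X, 3), (R, 2), (X, 1), (X, 2), (R, 3), (R, 2), (X, 1), (R, 2), (R, 0)] (Loc.r2b 1) (by decide) (by decide)

theorem m70 : LMove [(L, 0), (L, 2), (L, 3), (X, 1), (X, 2), (L, 3), (X, 2), (X, 1), (L, 2), (X, 0), (X, 1), (X, 3), (R, 2), (X, 1), (X, 2), (R, 3), (R, 2), (X, 1), (R, 2), (R, 0)]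
    [(L, 0), (L, 2), (L, 3), (X, 1), (X, 2), (L, 3), (X, 2), (X, 1), (L, 2), (X, 0), (X, 1), (X, 3), (R, 2), (X, 1), (X, 2), (X, 4), (X, 3), (R, 4), (R, 2), (X, 1), (R, 2), (R, 0)] :=
  mk_bwd [(L, 0), (L, 2), (L, 3), (X, 1), (X, 2), (L, 3), (X, 2), (X, 1), (L, 2), (X, 0), (X, 1), (X, 3), (R, 2), (X, 1), (X, 2)] _ _ [(R, 2), (X, 1), (R, 2), (R, 0)] (Loc.r2c 3) (by decide) (by decide)

theorem m71 : LMove [(L, 0), (L, 2), (L, 3), (X, 1), (X, 2), (L, 3), (X, 2), (X, 1), (L, 2), (X, 0), (X, 1), (X, 3), (R, 2), (X, 1), (X, 2), (X, 4), (X, 3), (R, 4), (R, 2), (X, 1), (R, 2), (R, 0)]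
    [(L, 0), (L, 0), (L, 3), (X, 1), (X, 2), (L, 3), (X, 2), (X, 1), (L, 2), (X, 0), (X, 1), (X, 3), (R, 2), (X, 1), (X, 2), (X, 4), (X, 3), (R, 4), (R, 2), (X, 1), (R, 2), (R, 0)] :=
  mk_fwd [] _ _ [(L, 3), (X, 1), (X, 2), (L, 3), (X, 2), (X, 1), (L, 2), (X, 0), (X, 1), (X, 3), (R, 2), (X, 1), (X, 2), (X, 4), (X, 3), (R, 4), (R, 2), (X, 1), (R, 2), (R, 0)] (Loc.comm L L 0 0) (by decide) (by decide)

theorem m72 : LMove [(L, 0), (L, 0), (L, 3), (X, 1), (X, 2), (L, 3), (X, 2), (X, 1), (L, 2), (X, 0), (X, 1), (X, 3), (R, 2), (X, 1), (X, 2), (X, 4), (X, 3), (R, 4), (R, 2), (X, 1), (R, 2), (R, 0)]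
    [(L, 0), (L, 0), (L, 3), (X, 1), (X, 2), (L, 3), (X, 2), (X, 1), (L, 2), (X, 0), (X, 3), (X, 1), (R, 2), (X, 1), (X, 2), (X, 4), (X, 3), (R, 4), (R, 2), (X, 1), (R, 2), (R, 0)] :=
  mk_fwd [(L, 0), (L, 0), (L, 3), (X, 1), (X, 2), (L, 3), (X, 2), (X, 1), (L, 2), (X, 0)] _ _ [(R, 2), (X, 1), (X, 2), (X, 4), (X, 3), (R, 4), (R, 2), (X, 1), (R, 2), (R, 0)] (Loc.comm X X 1 0) (by decide) (by decide)

theorem m73 : LMove [(L, 0), (L, 0), (L, 3), (X, 1), (X, 2), (L, 3), (X, 2), (X, 1), (L, 2), (X, 0), (X, 3), (X, 1), (R, 2), (X, 1), (X, 2), (X, 4), (X, 3), (R, 4), (R, 2), (X, 1), (R, 2), (R, 0)]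
    [(L, 0), (L, 0), (L, 3), (X, 1), (X, 2), (L, 3), (X, 2), (X, 1), (L, 2), (X, 3), (X, 0), (X, 1), (R, 2), (X, 1), (X, 2), (X, 4), (X, 3), (R, 4), (R, 2), (X, 1), (R, 2), (R, 0)] :=
  mk_fwd [(L, 0), (L, 0), (L, 3), (X, 1), (X, 2), (L, 3), (X, 2), (X, 1), (L, 2)] _ _ [(X, 1), (R, 2), (X, 1), (X, 2), (X, 4), (X, 3), (R, 4), (R, 2), (X, 1), (R, 2), (R, 0)] (Loc.comm X X 0 1) (by decide) (by decide)

theorem m74 : LMove [(L, 0), (L, 0), (L, 3), (X, 1), (X, 2), (L, 3), (X, 2), (X, 1), (L, 2), (X, 3), (X, 0), (X, 1), (R, 2), (X, 1), (X, 2), (X, 4), (X, 3), (R, 4), (R, 2), (X, 1), (R, 2), (R, 0)]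
    [(L, 0), (L, 0), (L, 3), (X, 1), (X, 2), (L, 3), (X, 2), (X, 1), (L, 2), (X, 3), (X, 0), (X, 1), (R, 2), (X, 1), (X, 4), (X, 2), (X, 3), (R, 4), (R, 2), (X, 1), (R, 2), (R, 0)] :=
  mk_fwd [(L, 0), (L, 0), (L, 3), (X, 1), (X, 2), (L, 3), (X, 2), (X, 1), (L, 2), (X, 3), (X, 0), (X, 1), (R, 2), (X, 1)] _ _ [(X, 3), (R, 4), (R, 2), (X, 1), (R, 2), (R, 0)] (Loc.comm X X 2 0) (by decide) (by decide)

theorem m75 : LMove [(L, 0), (L, 0), (L, 3), (X, 1), (X, 2), (L, 3), (X, 2), (X, 1), (L, 2), (X, 3), (X, 0), (X, 1), (R, 2), (X, 1), (X, 4), (X, 2), (X, 3), (R, 4), (R, 2), (X, 1), (R, 2), (R, 0)]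
    [(L, 0), (L, 0), (L, 3), (X, 1), (X, 2), (L, 3), (X, 2), (X, 1), (L, 2), (X, 3), (X, 0), (X, 1), (R, 2), (X, 1), (X, 4), (X, 2), (X, 3), (R, 2), (R, 2), (X, 1), (R, 2), (R, 0)] :=
  mk_bwd [(L, 0), (L, 0), (L, 3), (X, 1), (X, 2), (L, 3), (X, 2), (X, 1), (L, 2), (X, 3), (X, 0), (X, 1), (R, 2), (X, 1), (X, 4), (X, 2), (X, 3)] _ _ [(X, 1), (R, 2), (R, 0)] (Loc.comm R R 2 0) (by decide) (by decide)

theorem m76 : LMove [(L, 0), (L, 0), (L, 3), (X, 1), (X, 2), (L, 3), (X, 2), (X, 1), (L, 2), (X, 3), (X, 0), (X, 1), (R, 2), (X, 1), (X, 4), (X, 2), (X, 3), (R, 2), (R, 2), (X, 1), (R, 2), (R, 0)]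
    [(L, 0), (L, 0), (L, 3), (X, 1), (X, 2), (L, 3), (X, 2), (X, 1), (L, 2), (X, 3), (X, 0), (X, 1), (R, 2), (X, 1), (X, 4), (R, 3), (R, 2), (X, 1), (R, 2), (R, 0)] :=
  mk_fwd [(L, 0), (L, 0), (L, 3), (X, 1), (X, 2), (L, 3), (X, 2), (X, 1), (L, 2), (X, 3), (X, 0), (X, 1), (R, 2), (X, 1), (X, 4)] _ _ [(R, 2), (X, 1), (R, 2), (R, 0)] (Loc.r2d 2) (by decide) (by decide)

theorem m77 : LMove [(L, 0), (L, 0), (L, 3), (X, 1), (X, 2), (L, 3), (X, 2), (X, 1), (L, 2), (X, 3), (X, 0), (X, 1), (R, 2), (X, 1), (X, 4), (R, 3), (R, 2), (X, 1), (R, 2), (R, 0)]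
    [(L, 0), (L, 0), (L, 3), (X, 1), (X, 2), (L, 3), (X, 2), (X, 1), (L, 2), (X, 3), (X, 0), (X, 1), (R, 2), (X, 4), (X, 1), (R, 3), (R, 2), (X, 1), (R, 2), (R, 0)] :=
  mk_fwd [(L, 0), (L, 0), (L, 3), (X, 1), (X, 2), (L, 3), (X, 2), (X, 1), (L, 2), (X, 3), (X, 0), (X, 1), (R, 2)] _ _ [(R, 3), (R, 2), (X, 1), (R, 2), (R, 0)] (Loc.comm X X 1 1) (by decide) (by decide)

theorem m78 : LMove [(L, 0), (L, 0), (L, 3), (X, 1), (X, 2), (L, 3), (X, 2), (X, 1), (L, 2), (X, 3), (X, 0), (X, 1), (R, 2), (X, 4), (X, 1), (R, 3), (R, 2), (X, 1), (R, 2), (R, 0)]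
    [(L, 0), (L, 0), (L, 3), (X, 1), (X, 2), (L, 3), (X, 2), (X, 1), (L, 2), (X, 3), (X, 0), (X, 1), (X, 6), (R, 2), (X, 1), (R, 3), (R, 2), (X, 1), (R, 2), (R, 0)] :=
  mk_fwd [(L, 0), (L, 0), (L, 3), (X, 1), (X, 2), (L, 3), (X, 2), (X, 1), (L, 2), (X, 3), (X, 0), (X, 1)] _ _ [(X, 1), (R, 3), (R, 2), (X, 1), (R, 2), (R, 0)] (Loc.comm R X 2 2) (by decide) (by decide)

theorem m79 : LMove [(L, 0), (L, 0), (L, 3), (X, 1), (X, 2), (L, 3), (X, 2), (X, 1), (L, 2), (X, 3), (X, 0), (X, 1), (X, 6), (R, 2), (X, 1), (R, 3), (R, 2), (X, 1), (R, 2), (R, 0)]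
    [(L, 0), (L, 0), (L, 3), (X, 1), (X, 2), (L, 3), (X, 2), (X, 1), (L, 2), (X, 3), (X, 0), (X, 6), (X, 1), (R, 2), (X, 1), (R, 3), (R, 2), (X, 1), (R, 2), (R, 0)] :=
  mk_fwd [(L, 0), (L, 0), (L, 3), (X, 1), (X, 2), (L, 3), (X, 2), (X, 1), (L, 2), (X, 3), (X, 0)] _ _ [(R, 2), (X, 1), (R, 3), (R, 2), (X, 1), (R, 2), (R, 0)] (Loc.comm X X 1 3) (by decide) (by decide)

theorem m80 : LMove [(L, 0), (L, 0), (L, 3), (X, 1), (X, 2), (L, 3), (X, 2), (X, 1), (L, 2), (X, 3), (X, 0), (X, 6), (X, 1), (R, 2), (X, 1), (R, 3), (R, 2), (X, 1), (R, 2), (R, 0)]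
    [(L, 0), (L, 0), (L, 3), (X, 1), (X, 2), (L, 3), (X, 2), (X, 1), (L, 2), (X, 3), (X, 6), (X, 0), (X, 1), (R, 2), (X, 1), (R, 3), (R, 2), (X, 1), (R, 2), (R, 0)] :=
  mk_fwd [(L, 0), (L, 0), (L, 3), (X, 1), (X, 2), (L, 3), (X, 2), (X, 1), (L, 2), (X, 3)] _ _ [(X, 1), (R, 2), (X, 1), (R, 3), (R, 2), (X, 1), (R, 2), (R, 0)] (Loc.comm X X 0 4) (by decide) (by decide)

theorem m81 : LMove [(L, 0), (L, 0), (L, 3), (X, 1), (X, 2), (L, 3), (X, 2), (X, 1), (L, 2), (X, 3), (X, 6), (X, 0), (X, 1), (R, 2), (X, 1), (R, 3), (R, 2), (X, 1), (R, 2), (R, 0)]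
    [(L, 0), (L, 0), (L, 3), (X, 1), (X, 2), (L, 3), (X, 2), (X, 1), (L, 2), (X, 6), (X, 3), (X, 0), (X, 1), (R, 2), (X, 1), (R, 3), (R, 2), (X, 1), (R, 2), (R, 0)] :=
  mk_fwd [(L, 0), (L, 0), (L, 3), (X, 1), (X, 2), (L, 3), (X, 2), (X, 1), (L, 2)] _ _ [(X, 0), (X, 1), (R, 2), (X, 1), (R, 3), (R, 2), (X, 1), (R, 2), (R, 0)] (Loc.comm X X 3 1) (by decide) (by decide)

theorem m82 : LMove [(L, 0), (L, 0), (L, 3), (X, 1), (X, 2), (L, 3), (X, 2), (X, 1), (L, 2), (X, 6), (X, 3), (X, 0), (X, 1), (R, 2), (X, 1), (R, 3), (R, 2), (X, 1), (R, 2), (R, 0)]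
    [(L, 0), (L, 0), (L, 2), (X, 3), (X, 2), (X, 1), (X, 2), (L, 3), (X, 2), (X, 1), (L, 2), (X, 6), (X, 3), (X, 0), (X, 1), (R, 2), (X, 1), (R, 3), (R, 2), (X, 1), (R, 2), (R, 0)] :=
  mk_bwd [(L, 0), (L, 0)] _ _ [(X, 1), (X, 2), (L, 3), (X, 2), (X, 1), (L, 2), (X, 6), (X, 3), (X, 0), (X, 1), (R, 2), (X, 1), (R, 3), (R, 2), (X, 1), (R, 2), (R, 0)] (Loc.r2b 2) (by decide) (by decide)

theorem m83 : LMove [(L, 0), (L, 0), (L, 2), (X, 3), (X, 2), (X, 1), (X, 2), (L, 3), (X, 2), (X, 1), (L, 2), (X, 6), (X, 3), (X, 0), (X, 1), (R, 2), (X, 1), (R, 3), (R, 2), (X, 1), (R, 2), (R, 0)]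
    [(L, 0), (L, 0), (L, 2), (X, 3), (X, 2), (X, 1), (X, 2), (L, 3), (X, 2), (X, 1), (L, 2), (X, 6), (X, 0), (X, 3), (X, 1), (R, 2), (X, 1), (R, 3), (R, 2), (X, 1), (R, 2), (R, 0)] :=
  mk_bwd [(L, 0), (L, 0), (L, 2), (X, 3), (X, 2), (X, 1), (X, 2), (L, 3), (X, 2), (X, 1), (L, 2), (X, 6)] _ _ [(X, 1), (R, 2), (X, 1), (R, 3), (R, 2), (X, 1), (R, 2), (R, 0)] (Loc.comm X X 0 1) (by decide) (by decide)

theorem m84 : LMove [(L, 0), (L, 0), (L, 2), (X, 3), (X, 2), (X, 1), (X, 2), (L, 3), (X, 2), (X, 1), (L, 2), (X, 6), (X, 0), (X, 3), (X, 1), (R, 2), (X, 1), (R, 3), (R, 2), (X, 1), (R, 2), (R, 0)]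
    [(L, 0), (L, 0), (L, 2), (X, 3), (X, 2), (X, 1), (X, 2), (L, 3), (X, 2), (X, 1), (X, 4), (L, 2), (X, 0), (X, 3), (X, 1), (R, 2), (X, 1), (R, 3), (R, 2), (X, 1), (R, 2), (R, 0)] :=
  mk_fwd [(L, 0), (L, 0), (L, 2), (X, 3), (X, 2), (X, 1), (X, 2), (L, 3), (X, 2), (X, 1)] _ _ [(X, 0), (X, 3), (X, 1), (R, 2), (X, 1), (R, 3), (R, 2), (X, 1), (R, 2), (R, 0)] (Loc.comm L X 2 2) (by decide) (by decide)

theorem m85 : LMove [(L, 0), (L, 0), (L, 2), (X, 3), (X, 2), (X, 1), (X, 2), (L, 3), (X, 2), (X, 1), (X, 4), (L, 2), (X, 0), (X, 3), (X, 1), (R, 2), (X, 1), (R, 3), (R, 2), (X, 1), (R, 2), (R, 0)]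
    [(L, 0), (L, 2), (L, 2), (X, 3), (X, 2), (X, 1), (X, 2), (L, 3), (X, 2), (X, 1), (X, 4), (L, 2), (X, 0), (X, 3), (X, 1), (R, 2), (X, 1), (R, 3), (R, 2), (X, 1), (R, 2), (R, 0)] :=
  mk_bwd [] _ _ [(L, 2), (X, 3), (X, 2), (X, 1), (X, 2), (L, 3), (X, 2), (X, 1), (X, 4), (L, 2), (X, 0), (X, 3), (X, 1), (R, 2), (X, 1), (R, 3), (R, 2), (X, 1), (R, 2), (R, 0)] (Loc.comm L L 0 0) (by decide) (by decide)

theorem m86 : LMove [(L, 0), (L, 2), (L, 2), (X, 3), (X, 2), (X, 1), (X, 2), (L, 3), (X, 2), (X, 1), (X, 4), (L, 2), (X, 0), (X, 3), (X, 1), (R, 2), (X, 1), (R, 3), (R, 2), (X, 1), (R, 2), (R, 0)]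
    [(L, 0), (L, 2), (L, 4), (X, 3), (X, 2), (X, 1), (X, 2), (L, 3), (X, 2), (X, 1), (X, 4), (L, 2), (X, 0), (X, 3), (X, 1), (R, 2), (X, 1), (R, 3), (R, 2), (X, 1), (R, 2), (R, 0)] :=
  mk_bwd [(L, 0)] _ _ [(X, 3), (X, 2), (X, 1), (X, 2), (L, 3), (X, 2), (X, 1), (X, 4), (L, 2), (X, 0), (X, 3), (X, 1), (R, 2), (X, 1), (R, 3), (R, 2), (X, 1), (R, 2), (R, 0)] (Loc.comm L L 2 0) (by decide) (by decide)

theorem m87 : LMove [(L, 0), (L, 2), (L, 4), (X, 3), (X, 2), (X, 1), (X, 2), (L, 3), (X, 2), (X, 1), (X, 4), (L, 2), (X, 0), (X, 3), (X, 1), (R, 2), (X, 1), (R, 3), (R, 2), (X, 1), (R, 2), (R, 0)]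
    [(L, 0), (L, 2), (L, 4), (X, 3), (X, 2), (X, 1), (X, 2), (L, 3), (X, 2), (X, 1), (X, 4), (L, 2), (X, 0), (X, 3), (X, 1), (R, 2), (R, 3), (X, 1), (R, 2), (X, 1), (R, 2), (R, 0)] :=
  mk_fwd [(L, 0), (L, 2), (L, 4), (X, 3), (X, 2), (X, 1), (X, 2), (L, 3), (X, 2), (X, 1), (X, 4), (L, 2), (X, 0), (X, 3), (X, 1), (R, 2)] _ _ [(R, 2), (X, 1), (R, 2), (R, 0)] (Loc.comm X R 1 0) (by decide) (by decide)

theorem m88 : LMove [(L, 0), (L, 2), (L, 4), (X, 3), (X, 2), (X, 1), (X, 2), (L, 3), (X, 2), (X, 1), (X, 4), (L, 2), (X, 0), (X, 3), (X, 1), (R, 2), (R, 3), (X, 1), (R, 2), (X, 1), (R, 2), (R, 0)]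
    [(L, 0), (L, 2), (L, 4), (X, 3), (X, 2), (X, 1), (X, 2), (L, 3), (X, 2), (X, 1), (X, 4), (L, 2), (X, 0), (X, 3), (X, 1), (R, 5), (R, 2), (X, 1), (R, 2), (X, 1), (R, 2), (R, 0)] :=
  mk_fwd [(L, 0), (L, 2), (L, 4), (X, 3), (X, 2), (X, 1), (X, 2), (L, 3), (X, 2), (X, 1), (X, 4), (L, 2), (X, 0), (X, 3), (X, 1)] _ _ [(X, 1), (R, 2), (X, 1), (R, 2), (R, 0)] (Loc.comm R R 2 1) (by decide) (by decide)

theorem m89 : LMove [(L, 0), (L, 2), (L, 4), (X, 3), (X, 2), (X, 1), (X, 2), (L, 3), (X, 2), (X, 1), (X, 4), (L, 2), (X, 0), (X, 3), (X, 1), (R, 5), (R, 2), (X, 1), (R, 2), (X, 1), (R, 2), (R, 0)]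
    [(L, 0), (L, 2), (L, 4), (X, 3), (X, 2), (X, 1), (X, 2), (L, 3), (X, 2), (X, 1), (X, 4), (L, 2), (X, 0), (X, 3), (R, 5), (X, 1), (R, 2), (X, 1), (R, 2), (X, 1), (R, 2), (R, 0)] :=
  mk_fwd [(L, 0), (L, 2), (L, 4), (X, 3), (X, 2), (X, 1), (X, 2), (L, 3), (X, 2), (X, 1), (X, 4), (L, 2), (X, 0), (X, 3)] _ _ [(R, 2), (X, 1), (R, 2), (X, 1), (R, 2), (R, 0)] (Loc.comm X R 1 2) (by decide) (by decide)

theorem m90 : LMove [(L, 0), (L, 2), (L, 4), (X, 3), (X, 2), (X, 1), (X, 2), (L, 3), (X, 2), (X, 1), (X, 4), (L, 2), (X, 0), (X, 3), (R, 5), (X, 1), (R, 2), (X, 1), (R, 2), (X, 1), (R, 2), (R, 0)]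
    [(L, 0), (L, 2), (L, 4), (X, 3), (X, 1), (X, 2), (X, 1), (L, 3), (X, 2), (X, 1), (X, 4), (L, 2), (X, 0), (X, 3), (R, 5), (X, 1), (R, 2), (X, 1), (R, 2), (X, 1), (R, 2), (R, 0)] :=
  mk_bwd [(L, 0), (L, 2), (L, 4), (X, 3)] _ _ [(L, 3), (X, 2), (X, 1), (X, 4), (L, 2), (X, 0), (X, 3), (R, 5), (X, 1), (R, 2), (X, 1), (R, 2), (X, 1), (R, 2), (R, 0)] (Loc.r3 1) (by decide) (by decide)

theorem m91 : LMove [(L, 0), (L, 2), (L, 4), (X, 3), (X, 1), (X, 2), (X, 1), (L, 3), (X, 2), (X, 1), (X, 4), (L, 2), (X, 0), (X, 3), (R, 5), (X, 1), (R, 2), (X, 1), (R, 2), (X, 1), (R, 2), (R, 0)]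
    [(L, 0), (L, 2), (L, 4), (X, 3), (X, 1), (X, 2), (L, 3), (X, 1), (X, 2), (X, 1), (X, 4), (L, 2), (X, 0), (X, 3), (R, 5), (X, 1), (R, 2), (X, 1), (R, 2), (X, 1), (R, 2), (R, 0)] :=
  mk_fwd [(L, 0), (L, 2), (L, 4), (X, 3), (X, 1), (X, 2)] _ _ [(X, 2), (X, 1), (X, 4), (L, 2), (X, 0), (X, 3), (R, 5), (X, 1), (R, 2), (X, 1), (R, 2), (X, 1), (R, 2), (R, 0)] (Loc.comm X L 1 0) (by decide) (by decide)

theorem m92 : LMove [(L, 0), (L, 2), (L, 4), (X, 3), (X, 1), (X, 2), (L, 3), (X, 1), (X, 2), (X, 1), (X, 4), (L, 2), (X, 0), (X, 3), (R, 5), (X, 1), (R, 2), (X, 1), (R, 2), (X, 1), (R, 2), (R, 0)]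
    [(L, 0), (L, 2), (L, 4), (X, 3), (X, 1), (X, 2), (L, 2), (X, 3), (X, 2), (X, 1), (X, 2), (X, 1), (X, 4), (L, 2), (X, 0), (X, 3), (R, 5), (X, 1), (R, 2), (X, 1), (R, 2), (X, 1), (R, 2), (R, 0)] :=
  mk_bwd [(L, 0), (L, 2), (L, 4), (X, 3), (X, 1), (X, 2)] _ _ [(X, 1), (X, 2), (X, 1), (X, 4), (L, 2), (X, 0), (X, 3), (R, 5), (X, 1), (R, 2), (X, 1), (R, 2), (X, 1), (R, 2), (R, 0)] (Loc.r2b 2) (by decide) (by decide)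

theorem m93 : LMove [(L, 0), (L, 2), (L, 4), (X, 3), (X, 1), (X, 2), (L, 2), (X, 3), (X, 2), (X, 1), (X, 2), (X, 1), (X, 4), (L, 2), (X, 0), (X, 3), (R, 5), (X, 1), (R, 2), (X, 1), (R, 2), (X, 1), (R, 2), (R, 0)]
    [(L, 0), (L, 2), (L, 4), (X, 3), (X, 1), (X, 2), (L, 2), (X, 3), (X, 1), (X, 2), (X, 1), (X, 1), (X, 4), (L, 2), (X, 0), (X, 3), (R, 5), (X, 1), (R, 2), (X, 1), (R, 2), (X, 1), (R, 2), (R, 0)] :=
  mk_bwd [(L, 0), (L, 2), (L, 4), (X, 3), (X, 1), (X, 2), (L, 2), (X, 3)] _ _ [(X, 1), (X, 4), (L, 2), (X, 0), (X, 3), (R, 5), (X, 1), (R, 2), (X, 1), (R, 2), (X, 1), (R, 2), (R, 0)] (Loc.r3 1) (by decide) (by decide)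

theorem m94 : LMove [(L, 0), (L, 2), (L, 4), (X, 3), (X, 1), (X, 2), (L, 2), (X, 3), (X, 1), (X, 2), (X, 1), (X, 1), (X, 4), (L, 2), (X, 0), (X, 3), (R, 5), (X, 1), (R, 2), (X, 1), (R, 2), (X, 1), (R, 2), (R, 0)]
    [(L, 0), (L, 2), (L, 4), (X, 3), (X, 1), (X, 2), (L, 2), (X, 3), (X, 1), (X, 2), (X, 1), (X, 1), (X, 4), (L, 2), (X, 0), (R, 5), (X, 3), (X, 1), (R, 2), (X, 1), (R, 2), (X, 1), (R, 2), (R, 0)] :=
  mk_fwd [(L, 0), (L, 2), (L, 4), (X, 3), (X, 1), (X, 2), (L, 2), (X, 3), (X, 1), (X, 2), (X, 1), (X, 1), (X, 4), (L, 2), (X, 0)] _ _ [(X, 1), (R, 2), (X, 1), (R, 2), (X, 1), (R, 2), (R, 0)] (Loc.comm X R 3 0) (by decide) (by decide)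

theorem m95 : LMove [(L, 0), (L, 2), (L, 4), (X, 3), (X, 1), (X, 2), (L, 2), (X, 3), (X, 1), (X, 2), (X, 1), (X, 1), (X, 4), (L, 2), (X, 0), (R, 5), (X, 3), (X, 1), (R, 2), (X, 1), (R, 2), (X, 1), (R, 2), (R, 0)]
    [(L, 0), (L, 2), (L, 4), (X, 3), (X, 1), (X, 2), (L, 2), (X, 3), (X, 1), (X, 2), (X, 1), (X, 1), (X, 4), (L, 2), (R, 5), (X, 0), (X, 3), (X, 1), (R, 2), (X, 1), (R, 2), (X, 1), (R, 2), (R, 0)] :=
  mk_fwd [(L, 0), (L, 2), (L, 4), (X, 3), (X, 1), (X, 2), (L, 2), (X, 3), (X, 1), (X, 2), (X, 1), (X, 1), (X, 4), (L, 2)] _ _ [(X, 3), (X, 1), (R, 2), (X, 1), (R, 2), (X, 1), (R, 2), (R, 0)] (Loc.comm X R 0 3) (by decide) (by decide)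

theorem m96 : LMove [(L, 0), (L, 2), (L, 4), (X, 3), (X, 1), (X, 2), (L, 2), (X, 3), (X, 1), (X, 2), (X, 1), (X, 1), (X, 4), (L, 2), (R, 5), (X, 0), (X, 3), (X, 1), (R, 2), (X, 1), (R, 2), (X, 1), (R, 2), (R, 0)]
    [(L, 0), (L, 0), (L, 4), (X, 3), (X, 1), (X, 2), (L, 2), (X, 3), (X, 1), (X, 2), (X, 1), (X, 1), (X, 4), (L, 2), (R, 5), (X, 0), (X, 3), (X, 1), (R, 2), (X, 1), (R, 2), (X, 1), (R, 2), (R, 0)] :=
  mk_fwd [] _ _ [(L, 4), (X, 3), (X, 1), (X, 2), (L, 2), (X, 3), (X, 1), (X, 2), (X, 1), (X, 1), (X, 4), (L, 2), (R, 5), (X, 0), (X, 3), (X, 1), (R, 2), (X, 1), (R, 2), (X, 1), (R, 2), (R, 0)] (Loc.comm L L 0 0) (by decide) (by decide)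

theorem m97 : LMove [(L, 0), (L, 0), (L, 4), (X, 3), (X, 1), (X, 2), (L, 2), (X, 3), (X, 1), (X, 2), (X, 1), (X, 1), (X, 4), (L, 2), (R, 5), (X, 0), (X, 3), (X, 1), (R, 2), (X, 1), (R, 2), (X, 1), (R, 2), (R, 0)]
    [(L, 0), (L, 0), (L, 4), (X, 3), (X, 1), (X, 2), (L, 2), (X, 3), (X, 1), (X, 2), (X, 1), (X, 1), (X, 4), (L, 2), (R, 5), (X, 0), (X, 1), (X, 3), (R, 2), (X, 1), (R, 2), (X, 1), (R, 2), (R, 0)] :=
  mk_bwd [(L, 0), (L, 0), (L, 4), (X, 3), (X, 1), (X, 2), (L, 2), (X, 3), (X, 1), (X, 2), (X, 1), (X, 1), (X, 4), (L, 2), (R, 5), (X, 0)] _ _ [(R, 2), (X, 1), (R, 2), (X, 1), (R, 2), (R, 0)] (Loc.comm X X 1 0) (by decide) (by decide)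

theorem m98 : LMove [(L, 0), (L, 0), (L, 4), (X, 3), (X, 1), (X, 2), (L, 2), (X, 3), (X, 1), (X, 2), (X, 1), (X, 1), (X, 4), (L, 2), (R, 5), (X, 0), (X, 1), (X, 3), (R, 2), (X, 1), (R, 2), (X, 1), (R, 2), (R, 0)]
    [(L, 0), (L, 0), (L, 4), (X, 3), (X, 1), (X, 2), (L, 2), (X, 3), (X, 1), (X, 2), (X, 1), (X, 1), (X, 4), (R, 3), (L, 2), (X, 0), (X, 1), (X, 3), (R, 2), (X, 1), (R, 2), (X, 1), (R, 2), (R, 0)] :=
  mk_fwd [(L, 0), (L, 0), (L, 4), (X, 3), (X, 1), (X, 2), (L, 2), (X, 3), (X, 1), (X, 2), (X, 1), (X, 1), (X, 4)] _ _ [(X, 0), (X, 1), (X, 3), (R, 2), (X, 1), (R, 2), (X, 1), (R, 2), (R, 0)] (Loc.comm L R 2 1) (by decide) (by decide)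

theorem m99 : LMove [(L, 0), (L, 0), (L, 4), (X, 3), (X, 1), (X, 2), (L, 2), (X, 3), (X, 1), (X, 2), (X, 1), (X, 1), (X, 4), (R, 3), (L, 2), (X, 0), (X, 1), (X, 3), (R, 2), (X, 1), (R, 2), (X, 1), (R, 2), (R, 0)]
    [(L, 0), (L, 0), (L, 4), (X, 3), (X, 1), (X, 2), (L, 2), (X, 3), (X, 1), (X, 2), (X, 1), (X, 4), (X, 1), (R, 3), (L, 2), (X, 0), (X, 1), (X, 3), (R, 2), (X, 1), (R, 2), (X, 1), (R, 2), (R, 0)] :=
  mk_fwd [(L, 0), (L, 0), (L, 4), (X, 3), (X, 1), (X, 2), (L, 2), (X, 3), (X, 1), (X, 2), (X, 1)] _ _ [(R, 3), (L, 2), (X, 0), (X, 1), (X, 3), (R, 2), (X, 1), (R, 2), (X, 1), (R, 2), (R, 0)] (Loc.comm X X 1 1) (by decide) (by decide)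

theorem m100 : LMove [(L, 0), (L, 0), (L, 4), (X, 3), (X, 1), (X, 2), (L, 2), (X, 3), (X, 1), (X, 2), (X, 1), (X, 4), (X, 1), (R, 3), (L, 2), (X, 0), (X, 1), (X, 3), (R, 2), (X, 1), (R, 2), (X, 1), (R, 2), (R, 0)]
    [(L, 0), (L, 0), (L, 4), (X, 3), (X, 1), (X, 2), (L, 2), (X, 3), (X, 1), (X, 2), (X, 1), (X, 4), (R, 3), (X, 1), (L, 2), (X, 0), (X, 1), (X, 3), (R, 2), (X, 1), (R, 2), (X, 1), (R, 2), (R, 0)] :=
  mk_fwd [(L, 0), (L, 0), (L, 4), (X, 3), (X, 1), (X, 2), (L, 2), (X, 3), (X, 1), (X, 2), (X, 1), (X, 4)] _ _ [(L, 2), (X, 0), (X, 1), (X, 3), (R, 2), (X, 1), (R, 2), (X, 1), (R, 2), (R, 0)] (Loc.comm X R 1 0) (by decide) (by decide)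

theorem m101 : LMove [(L, 0), (L, 0), (L, 4), (X, 3), (X, 1), (X, 2), (L, 2), (X, 3), (X, 1), (X, 2), (X, 1), (X, 4), (R, 3), (X, 1), (L, 2), (X, 0), (X, 1), (X, 3), (R, 2), (X, 1), (R, 2), (X, 1), (R, 2), (R, 0)]
    [(L, 0), (L, 0), (L, 4), (X, 3), (X, 1), (X, 2), (L, 2), (X, 3), (X, 1), (X, 2), (X, 4), (X, 1), (R, 3), (X, 1), (L, 2), (X, 0), (X, 1), (X, 3), (R, 2), (X, 1), (R, 2), (X, 1), (R, 2), (R, 0)] :=
  mk_fwd [(L, 0), (L, 0), (L, 4), (X, 3), (X, 1), (X, 2), (L, 2), (X, 3), (X, 1), (X, 2)] _ _ [(R, 3), (X, 1), (L, 2), (X, 0), (X, 1), (X, 3), (R, 2), (X, 1), (R, 2), (X, 1), (R, 2), (R, 0)] (Loc.comm X X 1 1) (by decide) (by decide)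

theorem m102 : LMove [(L, 0), (L, 0), (L, 4), (X, 3), (X, 1), (X, 2), (L, 2), (X, 3), (X, 1), (X, 2), (X, 4), (X, 1), (R, 3), (X, 1), (L, 2), (X, 0), (X, 1), (X, 3), (R, 2), (X, 1), (R, 2), (X, 1), (R, 2), (R, 0)]
    [(L, 0), (L, 0), (L, 4), (X, 3), (X, 1), (X, 2), (L, 2), (X, 1), (X, 3), (X, 2), (X, 4), (X, 1), (R, 3), (X, 1), (L, 2), (X, 0), (X, 1), (X, 3), (R, 2), (X, 1), (R, 2), (X, 1), (R, 2), (R, 0)] :=
  mk_bwd [(L, 0), (L, 0), (L, 4), (X, 3), (X, 1), (X, 2), (L, 2)] _ _ [(X, 2), (X, 4), (X, 1), (R, 3), (X, 1), (L, 2), (X, 0), (X, 1), (X, 3), (R, 2), (X, 1), (R, 2), (X, 1), (R, 2), (R, 0)] (Loc.comm X X 1 0) (by decide) (by decide)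

theorem m103 : LMove [(L, 0), (L, 0), (L, 4), (X, 3), (X, 1), (X, 2), (L, 2), (X, 1), (X, 3), (X, 2), (X, 4), (X, 1), (R, 3), (X, 1), (L, 2), (X, 0), (X, 1), (X, 3), (R, 2), (X, 1), (R, 2), (X, 1), (R, 2), (R, 0)]
    [(L, 0), (L, 0), (L, 4), (X, 3), (X, 1), (X, 2), (L, 2), (X, 1), (X, 3), (X, 4), (X, 2), (X, 1), (R, 3), (X, 1), (L, 2), (X, 0), (X, 1), (X, 3), (R, 2), (X, 1), (R, 2), (X, 1), (R, 2), (R, 0)] :=
  mk_fwd [(L, 0), (L, 0), (L, 4), (X, 3), (X, 1), (X, 2), (L, 2), (X, 1), (X, 3)] _ _ [(X, 1), (R, 3), (X, 1), (L, 2), (X, 0), (X, 1), (X, 3), (R, 2), (X, 1), (R, 2), (X, 1), (R, 2), (R, 0)] (Loc.comm X X 2 0) (by decide) (by decide)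

theorem m104 : LMove [(L, 0), (L, 0), (L, 4), (X, 3), (X, 1), (X, 2), (L, 2), (X, 1), (X, 3), (X, 4), (X, 2), (X, 1), (R, 3), (X, 1), (L, 2), (X, 0), (X, 1), (X, 3), (R, 2), (X, 1), (R, 2), (X, 1), (R, 2), (R, 0)]
    [(L, 0), (L, 0), (L, 4), (X, 3), (X, 1), (L, 2), (X, 4), (X, 1), (X, 3), (X, 4), (X, 2), (X, 1), (R, 3), (X, 1), (L, 2), (X, 0), (X, 1), (X, 3), (R, 2), (X, 1), (R, 2), (X, 1), (R, 2), (R, 0)] :=
  mk_bwd [(L, 0), (L, 0), (L, 4), (X, 3), (X, 1)] _ _ [(X, 1), (X, 3), (X, 4), (X, 2), (X, 1), (R, 3), (X, 1), (L, 2), (X, 0), (X, 1), (X, 3), (R, 2), (X, 1), (R, 2), (X, 1), (R, 2), (R, 0)] (Loc.comm L X 2 0) (by decide) (by decide)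

theorem m105 : LMove [(L, 0), (L, 0), (L, 4), (X, 3), (X, 1), (L, 2), (X, 4), (X, 1), (X, 3), (X, 4), (X, 2), (X, 1), (R, 3), (X, 1), (L, 2), (X, 0), (X, 1), (X, 3), (R, 2), (X, 1), (R, 2), (X, 1), (R, 2), (R, 0)]
    [(L, 0), (L, 0), (L, 4), (X, 3), (X, 1), (L, 2), (X, 1), (X, 4), (X, 3), (X, 4), (X, 2), (X, 1), (R, 3), (X, 1), (L, 2), (X, 0), (X, 1), (X, 3), (R, 2), (X, 1), (R, 2), (X, 1), (R, 2), (R, 0)] :=
  mk_bwd [(L, 0), (L, 0), (L, 4), (X, 3), (X, 1), (L, 2)] _ _ [(X, 3), (X, 4), (X, 2), (X, 1), (R, 3), (X, 1), (L, 2), (X, 0), (X, 1), (X, 3), (R, 2), (X, 1), (R, 2), (X, 1), (R, 2), (R, 0)] (Loc.comm X X 1 1) (by decide) (by decide)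

theorem m106 : LMove [(L, 0), (L, 0), (L, 4), (X, 3), (X, 1), (L, 2), (X, 1), (X, 4), (X, 3), (X, 4), (X, 2), (X, 1), (R, 3), (X, 1), (L, 2), (X, 0), (X, 1), (X, 3), (R, 2), (X, 1), (R, 2), (X, 1), (R, 2), (R, 0)]
    [(L, 0), (L, 0), (L, 4), (X, 3), (X, 1), (L, 2), (X, 1), (X, 3), (X, 4), (X, 3), (X, 2), (X, 1), (R, 3), (X, 1), (L, 2), (X, 0), (X, 1), (X, 3), (R, 2), (X, 1), (R, 2), (X, 1), (R, 2), (R, 0)] :=
  mk_bwd [(L, 0), (L, 0), (L, 4), (X, 3), (X, 1), (L, 2), (X, 1)] _ _ [(X, 2), (X, 1), (R, 3), (X, 1), (L, 2), (X, 0), (X, 1), (X, 3), (R, 2), (X, 1), (R, 2), (X, 1), (R, 2), (R, 0)] (Loc.r3 3) (by decide) (by decide)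

theorem m107 : LMove [(L, 0), (L, 0), (L, 4), (X, 3), (X, 1), (L, 2), (X, 1), (X, 3), (X, 4), (X, 3), (X, 2), (X, 1), (R, 3), (X, 1), (L, 2), (X, 0), (X, 1), (X, 3), (R, 2), (X, 1), (R, 2), (X, 1), (R, 2), (R, 0)]
    [(L, 0), (L, 0), (L, 4), (X, 3), (X, 1), (L, 2), (X, 1), (X, 3), (X, 4), (X, 3), (X, 2), (R, 3), (X, 1), (X, 1), (L, 2), (X, 0), (X, 1), (X, 3), (R, 2), (X, 1), (R, 2), (X, 1), (R, 2), (R, 0)] :=
  mk_fwd [(L, 0), (L, 0), (L, 4), (X, 3), (X, 1), (L, 2), (X, 1), (X, 3), (X, 4), (X, 3), (X, 2)] _ _ [(X, 1), (L, 2), (X, 0), (X, 1), (X, 3), (R, 2), (X, 1), (R, 2), (X, 1), (R, 2), (R, 0)] (Loc.comm X R 1 0) (by decide) (by decide)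

theorem m108 : LMove [(L, 0), (L, 0), (L, 4), (X, 3), (X, 1), (L, 2), (X, 1), (X, 3), (X, 4), (X, 3), (X, 2), (R, 3), (X, 1), (X, 1), (L, 2), (X, 0), (X, 1), (X, 3), (R, 2), (X, 1), (R, 2), (X, 1), (R, 2), (R, 0)]
    [(L, 0), (L, 0), (L, 4), (X, 3), (X, 1), (L, 2), (X, 1), (X, 3), (X, 4), (X, 3), (X, 2), (R, 3), (X, 1), (X, 1), (X, 0), (L, 2), (X, 1), (X, 3), (R, 2), (X, 1), (R, 2), (X, 1), (R, 2), (R, 0)] :=
  mk_bwd [(L, 0), (L, 0), (L, 4), (X, 3), (X, 1), (L, 2), (X, 1), (X, 3), (X, 4), (X, 3), (X, 2), (R, 3), (X, 1), (X, 1)] _ _ [(X, 1), (X, 3), (R, 2), (X, 1), (R, 2), (X, 1), (R, 2), (R, 0)] (Loc.comm X L 0 0) (by decide) (by decide)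

theorem m109 : LMove [(L, 0), (L, 0), (L, 4), (X, 3), (X, 1), (L, 2), (X, 1), (X, 3), (X, 4), (X, 3), (X, 2), (R, 3), (X, 1), (X, 1), (X, 0), (L, 2), (X, 1), (X, 3), (R, 2), (X, 1), (R, 2), (X, 1), (R, 2), (R, 0)]
    [(L, 0), (L, 0), (L, 4), (X, 3), (X, 1), (L, 2), (X, 1), (X, 3), (X, 4), (X, 3), (X, 2), (R, 3), (X, 1), (X, 1), (X, 0), (L, 2), (X, 1), (X, 3), (R, 2), (X, 1), (R, 2), (X, 1), (R, 0), (R, 0)] :=
  mk_bwd [(L, 0), (L, 0), (L, 4), (X, 3), (X, 1), (L, 2), (X, 1), (X, 3), (X, 4), (X, 3), (X, 2), (R, 3), (X, 1), (X, 1), (X, 0), (L, 2), (X, 1), (X, 3), (R, 2), (X, 1), (R, 2), (X, 1)] _ _ [] (Loc.comm R R 0 0) (by decide) (by decide)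

theorem m110 : LMove [(L, 0), (L, 0), (L, 4), (X, 3), (X, 1), (L, 2), (X, 1), (X, 3), (X, 4), (X, 3), (X, 2), (R, 3), (X, 1), (X, 1), (X, 0), (L, 2), (X, 1), (X, 3), (R, 2), (X, 1), (R, 2), (X, 1), (R, 0), (R, 0)]
    [(L, 0), (L, 0), (L, 4), (X, 3), (X, 1), (L, 2), (X, 1), (X, 3), (X, 4), (R, 2), (X, 1), (X, 1), (X, 0), (L, 2), (X, 1), (X, 3), (R, 2), (X, 1), (R, 2), (X, 1), (R, 0), (R, 0)] :=
  mk_fwd [(L, 0), (L, 0), (L, 4), (X, 3), (X, 1), (L, 2), (X, 1), (X, 3), (X, 4)] _ _ [(X, 1), (X, 1), (X, 0), (L, 2), (X, 1), (X, 3), (R, 2), (X, 1), (R, 2), (X, 1), (R, 0), (R, 0)] (Loc.r2c 2) (by decide) (by decide)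

theorem m111 : LMove [(L, 0), (L, 0), (L, 4), (X, 3), (X, 1), (L, 2), (X, 1), (X, 3), (X, 4), (R, 2), (X, 1), (X, 1), (X, 0), (L, 2), (X, 1), (X, 3), (R, 2), (X, 1), (R, 2), (X, 1), (R, 0), (R, 0)]
    [(L, 0), (L, 0), (L, 4), (X, 3), (X, 1), (L, 2), (X, 1), (X, 3), (R, 2), (X, 2), (X, 1), (X, 1), (X, 0), (L, 2), (X, 1), (X, 3), (R, 2), (X, 1), (R, 2), (X, 1), (R, 0), (R, 0)] :=
  mk_bwd [(L, 0), (L, 0), (L, 4), (X, 3), (X, 1), (L, 2), (X, 1), (X, 3)] _ _ [(X, 1), (X, 1), (X, 0), (L, 2), (X, 1), (X, 3), (R, 2), (X, 1), (R, 2), (X, 1), (R, 0), (R, 0)] (Loc.comm R X 2 0) (by decide) (by decide)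

theorem m112 : LMove [(L, 0), (L, 0), (L, 4), (X, 3), (X, 1), (L, 2), (X, 1), (X, 3), (R, 2), (X, 2), (X, 1), (X, 1), (X, 0), (L, 2), (X, 1), (X, 3), (R, 2), (X, 1), (R, 2), (X, 1), (R, 0), (R, 0)]
    [(L, 0), (L, 2), (L, 0), (X, 3), (X, 1), (L, 2), (X, 1), (X, 3), (R, 2), (X, 2), (X, 1), (X, 1), (X, 0), (L, 2), (X, 1), (X, 3), (R, 2), (X, 1), (R, 2), (X, 1), (R, 0), (R, 0)] :=
  mk_fwd [(L, 0)] _ _ [(X, 3), (X, 1), (L, 2), (X, 1), (X, 3), (R, 2), (X, 2), (X, 1), (X, 1), (X, 0), (L, 2), (X, 1), (X, 3), (R, 2), (X, 1), (R, 2), (X, 1), (R, 0), (R, 0)] (Loc.comm L L 0 2) (by decide) (by decide)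

theorem m113 : LMove [(L, 0), (L, 2), (L, 0), (X, 3), (X, 1), (L, 2), (X, 1), (X, 3), (R, 2), (X, 2), (X, 1), (X, 1), (X, 0), (L, 2), (X, 1), (X, 3), (R, 2), (X, 1), (R, 2), (X, 1), (R, 0), (R, 0)]
    [(L, 0), (L, 2), (X, 1), (L, 0), (X, 1), (L, 2), (X, 1), (X, 3), (R, 2), (X, 2), (X, 1), (X, 1), (X, 0), (L, 2), (X, 1), (X, 3), (R, 2), (X, 1), (R, 2), (X, 1), (R, 0), (R, 0)] :=
  mk_fwd [(L, 0), (L, 2)] _ _ [(X, 1), (L, 2), (X, 1), (X, 3), (R, 2), (X, 2), (X, 1), (X, 1), (X, 0), (L, 2), (X, 1), (X, 3), (R, 2), (X, 1), (R, 2), (X, 1), (R, 0), (R, 0)] (Loc.comm L X 0 1) (by decide) (by decide)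

/-- The example. -/
def F : Word := [(L, 0), (L, 2), (X, 1), (L, 0), (X, 1), (L, 2), (X, 1), (X, 3), (R, 2), (X, 2), (X, 1), (X, 1), (X, 0), (L, 2), (X, 1), (X, 3), (R, 2), (X, 1), (R, 2), (X, 1), (R, 0), (R, 0)]

theorem F_unknot : IsMaxTbUnknotFront F := by
  have h0 : IsMaxTbUnknotFront [(L, 0), (R, 0)] := Relation.ReflTransGen.refl
  have h1 := Relation.ReflTransGen.tail h0 m0
  have h2 := Relation.ReflTransGen.tail h1 m1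
  have h3 := Relation.ReflTransGen.tail h2 m2
  have h4 := Relation.ReflTransGen.tail h3 m3
  have h5 := Relation.ReflTransGen.tail h4 m4
  have h6 := Relation.ReflTransGen.tail h5 m5
  have h7 := Relation.ReflTransGen.tail h6 m6
  have h8 := Relation.ReflTransGen.tail h7 m7
  have h9 := Relation.ReflTransGen.tail h8 m8
  have h10 := Relation.ReflTransGen.tail h9 m9
  have h11 := Relation.ReflTransGen.tail h10 m10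
  have h12 := Relation.ReflTransGen.tail h11 m11
  have h13 := Relation.ReflTransGen.tail h12 m12
  have h14 := Relation.ReflTransGen.tail h13 m13
  have h15 := Relation.ReflTransGen.tail h14 m14
  have h16 := Relation.ReflTransGen.tail h15 m15
  have h17 := Relation.ReflTransGen.tail h16 m16
  have h18 := Relation.ReflTransGen.tail h17 m17
  have h19 := Relation.ReflTransGen.tail h18 m18
  have h20 := Relation.ReflTransGen.tail h19 m19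
  have h21 := Relation.ReflTransGen.tail h20 m20
  have h22 := Relation.ReflTransGen.tail h21 m21
  have h23 := Relation.ReflTransGen.tail h22 m22
  have h24 := Relation.ReflTransGen.tail h23 m23
  have h25 := Relation.ReflTransGen.tail h24 m24
  have h26 := Relation.ReflTransGen.tail h25 m25
  have h27 := Relation.ReflTransGen.tail h26 m26
  have h28 := Relation.ReflTransGen.tail h27 m27
  have h29 := Relation.ReflTransGen.tail h28 m28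
  have h30 := Relation.ReflTransGen.tail h29 m29
  have h31 := Relation.ReflTransGen.tail h30 m30
  have h32 := Relation.ReflTransGen.tail h31 m31
  have h33 := Relation.ReflTransGen.tail h32 m32
  have h34 := Relation.ReflTransGen.tail h33 m33
  have h35 := Relation.ReflTransGen.tail h34 m34
  have h36 := Relation.ReflTransGen.tail h35 m35
  have h37 := Relation.ReflTransGen.tail h36 m36
  have h38 := Relation.ReflTransGen.tail h37 m37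
  have h39 := Relation.ReflTransGen.tail h38 m38
  have h40 := Relation.ReflTransGen.tail h39 m39
  have h41 := Relation.ReflTransGen.tail h40 m40
  have h42 := Relation.ReflTransGen.tail h41 m41
  have h43 := Relation.ReflTransGen.tail h42 m42
  have h44 := Relation.ReflTransGen.tail h43 m43
  have h45 := Relation.ReflTransGen.tail h44 m44
  have h46 := Relation.ReflTransGen.tail h45 m45
  have h47 := Relation.ReflTransGen.tail h46 m46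
  have h48 := Relation.ReflTransGen.tail h47 m47
  have h49 := Relation.ReflTransGen.tail h48 m48
  have h50 := Relation.ReflTransGen.tail h49 m49
  have h51 := Relation.ReflTransGen.tail h50 m50
  have h52 := Relation.ReflTransGen.tail h51 m51
  have h53 := Relation.ReflTransGen.tail h52 m52
  have h54 := Relation.ReflTransGen.tail h53 m53
  have h55 := Relation.ReflTransGen.tail h54 m54
  have h56 := Relation.ReflTransGen.tail h55 m55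
  have h57 := Relation.ReflTransGen.tail h56 m56
  have h58 := Relation.ReflTransGen.tail h57 m57
  have h59 := Relation.ReflTransGen.tail h58 m58
  have h60 := Relation.ReflTransGen.tail h59 m59
  have h61 := Relation.ReflTransGen.tail h60 m60
  have h62 := Relation.ReflTransGen.tail h61 m61
  have h63 := Relation.ReflTransGen.tail h62 m62
  have h64 := Relation.ReflTransGen.tail h63 m63
  have h65 := Relation.ReflTransGen.tail h64 m64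
  have h66 := Relation.ReflTransGen.tail h65 m65
  have h67 := Relation.ReflTransGen.tail h66 m66
  have h68 := Relation.ReflTransGen.tail h67 m67
  have h69 := Relation.ReflTransGen.tail h68 m68
  have h70 := Relation.ReflTransGen.tail h69 m69
  have h71 := Relation.ReflTransGen.tail h70 m70
  have h72 := Relation.ReflTransGen.tail h71 m71
  have h73 := Relation.ReflTransGen.tail h72 m72
  have h74 := Relation.ReflTransGen.tail h73 m73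
  have h75 := Relation.ReflTransGen.tail h74 m74
  have h76 := Relation.ReflTransGen.tail h75 m75
  have h77 := Relation.ReflTransGen.tail h76 m76
  have h78 := Relation.ReflTransGen.tail h77 m77
  have h79 := Relation.ReflTransGen.tail h78 m78
  have h80 := Relation.ReflTransGen.tail h79 m79
  have h81 := Relation.ReflTransGen.tail h80 m80
  have h82 := Relation.ReflTransGen.tail h81 m81
  have h83 := Relation.ReflTransGen.tail h82 m82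
  have h84 := Relation.ReflTransGen.tail h83 m83
  have h85 := Relation.ReflTransGen.tail h84 m84
  have h86 := Relation.ReflTransGen.tail h85 m85
  have h87 := Relation.ReflTransGen.tail h86 m86
  have h88 := Relation.ReflTransGen.tail h87 m87
  have h89 := Relation.ReflTransGen.tail h88 m88
  have h90 := Relation.ReflTransGen.tail h89 m89
  have h91 := Relation.ReflTransGen.tail h90 m90
  have h92 := Relation.ReflTransGen.tail h91 m91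
  have h93 := Relation.ReflTransGen.tail h92 m92
  have h94 := Relation.ReflTransGen.tail h93 m93
  have h95 := Relation.ReflTransGen.tail h94 m94
  have h96 := Relation.ReflTransGen.tail h95 m95
  have h97 := Relation.ReflTransGen.tail h96 m96
  have h98 := Relation.ReflTransGen.tail h97 m97
  have h99 := Relation.ReflTransGen.tail h98 m98
  have h100 := Relation.ReflTransGen.tail h99 m99
  have h101 := Relation.ReflTransGen.tail h100 m100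
  have h102 := Relation.ReflTransGen.tail h101 m101
  have h103 := Relation.ReflTransGen.tail h102 m102
  have h104 := Relation.ReflTransGen.tail h103 m103
  have h105 := Relation.ReflTransGen.tail h104 m104
  have h106 := Relation.ReflTransGen.tail h105 m105
  have h107 := Relation.ReflTransGen.tail h106 m106
  have h108 := Relation.ReflTransGen.tail h107 m107
  have h109 := Relation.ReflTransGen.tail h108 m108
  have h110 := Relation.ReflTransGen.tail h109 m109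
  have h111 := Relation.ReflTransGen.tail h110 m110
  have h112 := Relation.ReflTransGen.tail h111 m111
  have h113 := Relation.ReflTransGen.tail h112 m112
  have h114 := Relation.ReflTransGen.tail h113 m113
  exact h114

end Pool.Agent.Work.MP_0e30b3_gt
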